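import Mathlib

/-!
# Open discrete maps: normal neighbourhoods and the covering over the complement of the image of
the branch set
-/

set_option autoImplicit false
set_option linter.unusedSectionVars false

open Set Topology Metric

namespace Run7.h379

variable {E P : Type*} [NormedAddCommGroup E] [NormedSpace ℝ E] [FiniteDimensional ℝ E]
  [NormedAddCommGroup P] [NormedSpace ℝ P] [FiniteDimensional ℝ P]

/-- the branch set -/
def Br (D : Set E) (g : E → P) : Set E :=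
  {x | x ∈ D ∧ ∀ U : Set E, IsOpen U → x ∈ U → U ⊆ D → ¬ InjOn g U}

/-- continuous, open and discrete on the open set `D` -/
structure OD (D : Set E) (g : E → P) : Prop where
  isOpen : IsOpen D
  cont : ContinuousOn g D
  open_ : ∀ U : Set E, IsOpen U → U ⊆ D → IsOpen (g '' U)
  disc : ∀ x ∈ D, ∃ ε > (0 : ℝ), ∀ y ∈ D, dist y x < ε → g y = g x → y = x

theorem OD.mono {D D' : Set E} {g : E → P} (h : OD D g) (h' : IsOpen D') (hs : D' ⊆ D) :
    OD D' g where
  isOpen := h'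
  cont := h.cont.mono hs
  open_ := fun U hU hUD => h.open_ U hU (hUD.trans hs)
  disc := fun x hx => by
    obtain ⟨ε, hε, h1⟩ := h.disc x (hs hx)
    exact ⟨ε, hε, fun y hy => h1 y (hs hy)⟩

theorem Br_mono {D D' : Set E} {g : E → P} (hs : D' ⊆ D) : Br D g ∩ D' ⊆ Br D' g := by
  rintro x ⟨⟨-, h2⟩, h3⟩
  exact ⟨h3, fun U hU hx hUD => h2 U hU hx (hUD.trans hs)⟩

theorem Br_anti {D D' : Set E} {g : E → P} (h' : IsOpen D') (hs : D' ⊆ D) :
    Br D' g ⊆ Br D g := by
  rintro x ⟨h1, h2⟩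
  refine ⟨hs h1, fun U hU hx hUD hinj => ?_⟩
  exact h2 (U ∩ D') (hU.inter h') ⟨hx, h1⟩ inter_subset_right (hinj.mono inter_subset_left)

theorem isOpen_diff_Br {D : Set E} {g : E → P} (_h : IsOpen D) : IsOpen (D \ Br D g) := by
  rw [isOpen_iff_mem_nhds]
  rintro x ⟨h1, h2⟩
  have : ∃ U : Set E, IsOpen U ∧ x ∈ U ∧ U ⊆ D ∧ InjOn g U := by
    by_contra hcon
    push Not at hcon
    exact h2 ⟨h1, hcon⟩
  obtain ⟨U, hU, hx, hUD, hinj⟩ := this
  refine Filter.mem_of_superset (hU.mem_nhds hx) fun y hy => ⟨hUD hy, fun hB => ?_⟩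
  exact hB.2 U hU hy hUD hinj

variable {D : Set E} {g : E → P}

/-- normal neighbourhoods -/
theorem OD.normal (h : OD D g) {x0 : E} (hx0 : x0 ∈ D) {η : ℝ} (hη : 0 < η) :
    ∃ ε > 0, ε < η ∧ closedBall x0 ε ⊆ D ∧ ∃ r > 0, ∀ x ∈ sphere x0 ε, r ≤ dist (g x) (g x0) := by
  obtain ⟨ε1, hε1, h1⟩ := h.disc x0 hx0
  obtain ⟨ε2, hε2, h2⟩ := Metric.isOpen_iff.1 h.isOpen x0 hx0
  set ε := min (min ε1 ε2) η / 2 with hε
  have h0 : 0 < min (min ε1 ε2) η := lt_min (lt_min hε1 hε2) hη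
  have e1 : ε < ε1 := by
    have := (min_le_left (min ε1 ε2) η).trans (min_le_left ε1 ε2)
    linarith
  have e2 : ε < ε2 := by
    have := (min_le_left (min ε1 ε2) η).trans (min_le_right ε1 ε2)
    linarith
  have e3 : ε < η := by
    have := min_le_right (min ε1 ε2) η
    linarith
  have hsub : closedBall x0 ε ⊆ D := (closedBall_subset_ball e2).trans h2
  refine ⟨ε, by positivity, e3, hsub, ?_⟩
  have hcs : IsCompact (sphere x0 ε) := isCompact_sphere x0 ε
  have hcont : ContinuousOn (fun x => dist (g x) (g x0)) (sphere x0 ε) :=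
    continuous_dist.comp_continuousOn
      ((h.cont.mono (sphere_subset_closedBall.trans hsub)).prodMk continuousOn_const)
  rcases (sphere x0 ε).eq_empty_or_nonempty with he | hne
  · exact ⟨1, one_pos, fun x hx => by rw [he] at hx; exact hx.elim⟩
  · obtain ⟨z, hz, hmin⟩ := hcs.exists_isMinOn hne hcont
    refine ⟨dist (g z) (g x0), ?_, fun x hx => hmin hx⟩
    rw [gt_iff_lt, dist_pos]
    intro heq
    have hzd : dist z x0 = ε := hz
    have := h1 z (hsub (sphere_subset_closedBall hz)) (by rw [hzd]; exact e1) heq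
    rw [this, dist_self] at hzd
    have : 0 < ε := by positivity
    linarith

/-- data of a normal neighbourhood -/
structure Nb (D : Set E) (g : E → P) (x0 : E) (ε r : ℝ) : Prop where
  εpos : 0 < ε
  rpos : 0 < r
  sub : closedBall x0 ε ⊆ D
  far : ∀ x ∈ sphere x0 ε, r ≤ dist (g x) (g x0)

theorem OD.exists_Nb (h : OD D g) {x0 : E} (hx0 : x0 ∈ D) {η : ℝ} (hη : 0 < η) :
    ∃ ε r, ε < η ∧ Nb D g x0 ε r := by
  obtain ⟨ε, h1, h2, h3, r, h4, h5⟩ := h.normal hx0 hη
  exact ⟨ε, r, h2, h1, h4, h3, h5⟩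

variable {x0 : E} {ε r : ℝ}

theorem Nb.anti (hN : Nb D g x0 ε r) {r' : ℝ} (h0 : 0 < r') (h : r' ≤ r) : Nb D g x0 ε r' where
  εpos := hN.εpos
  rpos := h0
  sub := hN.sub
  far := fun x hx => h.trans (hN.far x hx)

/-- the domain of the normal neighbourhood -/
def NU (g : E → P) (x0 : E) (ε r : ℝ) : Set E := ball x0 ε ∩ g ⁻¹' ball (g x0) r

theorem Nb.mem_ball (hN : Nb D g x0 ε r) {x : E} (hx : x ∈ closedBall x0 ε)
    (hgx : g x ∈ ball (g x0) r) : x ∈ NU g x0 ε r := by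
  refine ⟨?_, hgx⟩
  by_contra hcon
  have h1 : x ∈ sphere x0 ε := by
    rw [Metric.mem_closedBall] at hx
    rw [Metric.mem_ball] at hcon
    exact le_antisymm hx (not_lt.1 hcon)
  have h2 := hN.far x h1
  rw [Metric.mem_ball] at hgx
  linarith

theorem Nb.isOpen_NU (hN : Nb D g x0 ε r) (h : OD D g) : IsOpen (NU g x0 ε r) :=
  (h.cont.mono (ball_subset_closedBall.trans hN.sub)).isOpen_inter_preimage isOpen_ball isOpen_ball

theorem Nb.NU_sub (hN : Nb D g x0 ε r) : NU g x0 ε r ⊆ D :=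
  fun _ hx => hN.sub (ball_subset_closedBall hx.1)

theorem Nb.x0_mem (hN : Nb D g x0 ε r) : x0 ∈ NU g x0 ε r :=
  ⟨mem_ball_self hN.εpos, mem_ball_self hN.rpos⟩

theorem Nb.isCompact (hN : Nb D g x0 ε r) (h : OD D g) {K : Set P} (hK : IsClosed K) :
    IsCompact (closedBall x0 ε ∩ g ⁻¹' K) :=
  (isCompact_closedBall x0 ε).of_isClosed_subset
    ((h.cont.mono hN.sub).preimage_isClosed_of_isClosed isClosed_closedBall hK) inter_subset_left

/-- the restricted map -/
def pV (g : E → P) (x0 : E) (ε r : ℝ) : NU g x0 ε r → ball (g x0) r := fun x => ⟨g x, x.2.2⟩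

theorem Nb.cont_pV (hN : Nb D g x0 ε r) (h : OD D g) : Continuous (pV g x0 ε r) := by
  refine Continuous.subtype_mk ?_ _
  exact (h.cont.mono hN.NU_sub).comp_continuous continuous_subtype_val fun x => x.2

theorem Nb.isProperMap_pV (hN : Nb D g x0 ε r) (h : OD D g) : IsProperMap (pV g x0 ε r) := by
  have : LocallyCompactSpace (ball (g x0) r) := isOpen_ball.locallyCompactSpace
  rw [isProperMap_iff_isCompact_preimage]
  refine ⟨hN.cont_pV h, ?_⟩
  intro K hK
  have hK' : IsCompact (Subtype.val '' K) := hK.image continuous_subtype_val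
  rw [Topology.IsInducing.subtypeVal.isCompact_iff]
  have : Subtype.val '' (pV g x0 ε r ⁻¹' K) = closedBall x0 ε ∩ g ⁻¹' (Subtype.val '' K) := by
    ext x
    constructor
    · rintro ⟨⟨y, hy⟩, hyK, rfl⟩
      exact ⟨ball_subset_closedBall hy.1, ⟨_, hyK, rfl⟩⟩
    · rintro ⟨hx, ⟨q, hq, hqx⟩⟩
      have hq2 : g x ∈ ball (g x0) r := hqx ▸ q.2
      refine ⟨⟨x, hN.mem_ball hx hq2⟩, ?_, rfl⟩
      show pV g x0 ε r ⟨x, _⟩ ∈ K
      convert hq using 1
      exact Subtype.ext hqx.symm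
  rw [this]
  exact hN.isCompact h hK'.isClosed

theorem Nb.isOpenMap_pV (hN : Nb D g x0 ε r) (h : OD D g) : IsOpenMap (pV g x0 ε r) := by
  intro U hU
  have h1 : IsOpen (Subtype.val '' U : Set E) := (hN.isOpen_NU h).isOpenMap_subtype_val U hU
  have h2 : IsOpen (g '' (Subtype.val '' U)) := h.open_ _ h1 (by
    rintro _ ⟨x, -, rfl⟩
    exact hN.NU_sub x.2)
  have h3 : pV g x0 ε r '' U = Subtype.val ⁻¹' (g '' (Subtype.val '' U)) := by
    ext q
    constructor
    · rintro ⟨x, hx, rfl⟩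
      exact ⟨x, ⟨x, hx, rfl⟩, rfl⟩
    · rintro ⟨_, ⟨x, hx, rfl⟩, hxq⟩
      exact ⟨x, hx, Subtype.ext hxq⟩
  rw [h3]
  exact h2.preimage continuous_subtype_val

theorem Nb.finite_fiber (hN : Nb D g x0 ε r) (h : OD D g) {q : P} (hq : q ∈ ball (g x0) r) :
    {x | x ∈ NU g x0 ε r ∧ g x = q}.Finite := by
  have hc : IsCompact {x | x ∈ NU g x0 ε r ∧ g x = q} := by
    have : {x | x ∈ NU g x0 ε r ∧ g x = q} = closedBall x0 ε ∩ g ⁻¹' {q} := by
      ext x
      constructor
      · rintro ⟨h1, h2⟩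
        exact ⟨ball_subset_closedBall h1.1, h2⟩
      · rintro ⟨h1, h2⟩
        have h2' : g x = q := h2
        exact ⟨hN.mem_ball h1 (by rw [h2']; exact hq), h2⟩
    rw [this]
    exact hN.isCompact h isClosed_singleton
  refine hc.finite ?_
  rw [isDiscrete_iff_forall_mem_exists_isOpen]
  rintro x ⟨hx, hgx⟩
  obtain ⟨δ, hδ, h1⟩ := h.disc x (hN.NU_sub hx)
  refine ⟨ball x δ, isOpen_ball, ?_⟩
  ext y
  constructor
  · rintro ⟨h2, h3, h4⟩
    exact h1 y (hN.NU_sub h3) h2 (h4.trans hgx.symm)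
  · rintro rfl
    exact ⟨mem_ball_self hδ, hx, hgx⟩

/-- the good set: the complement, in the ball, of the image of the branch set -/
def ZZ (D : Set E) (g : E → P) (x0 : E) (ε r : ℝ) : Set P :=
  ball (g x0) r \ g '' (Br D g ∩ NU g x0 ε r)

theorem Nb.isOpen_ZZ (hN : Nb D g x0 ε r) (h : OD D g) : IsOpen (ZZ D g x0 ε r) := by
  have hcl : IsClosed (Subtype.val ⁻¹' (Br D g) : Set (NU g x0 ε r)) := by
    rw [← isOpen_compl_iff]
    have : (Subtype.val ⁻¹' (Br D g) : Set (NU g x0 ε r))ᶜ = Subtype.val ⁻¹' (D \ Br D g) := by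
      ext x
      constructor
      · intro hx
        exact ⟨hN.NU_sub x.2, hx⟩
      · intro hx
        exact hx.2
    rw [this]
    exact (isOpen_diff_Br h.isOpen).preimage continuous_subtype_val
  have h1 := (hN.isProperMap_pV h).isClosedMap _ hcl
  have h2 : ZZ D g x0 ε r = Subtype.val '' (pV g x0 ε r '' (Subtype.val ⁻¹' (Br D g)))ᶜ := by
    ext q
    constructor
    · rintro ⟨hq, hq'⟩
      refine ⟨⟨q, hq⟩, ?_, rfl⟩
      rintro ⟨x, hx, hxq⟩
      exact hq' ⟨x, ⟨hx, x.2⟩, congrArg Subtype.val hxq⟩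
    · rintro ⟨q', hq', rfl⟩
      refine ⟨q'.2, ?_⟩
      rintro ⟨x, ⟨hx1, hx2⟩, hx3⟩
      exact hq' ⟨⟨x, hx2⟩, hx1, Subtype.ext hx3⟩
  rw [h2]
  exact isOpen_ball.isOpenMap_subtype_val _ h1.isOpen_compl

/-- the map of the normal neighbourhood -/
def pN (g : E → P) (x0 : E) (ε r : ℝ) : NU g x0 ε r → P := fun x => g x

theorem Nb.cont_pN (hN : Nb D g x0 ε r) (h : OD D g) : Continuous (pN g x0 ε r) :=
  (h.cont.mono hN.NU_sub).comp_continuous continuous_subtype_val fun x => x.2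

theorem Nb.isCoveringMapOn (hN : Nb D g x0 ε r) (h : OD D g) :
    IsCoveringMapOn (pN g x0 ε r) (ZZ D g x0 ε r) := by
  have key : IsCoveringMapOn (pV g x0 ε r) (Subtype.val ⁻¹' ZZ D g x0 ε r) := by
    refine (hN.isProperMap_pV h).isClosedMap.isCoveringMapOn_of_isLocalHomeomorphOn ?_ ?_
    · intro q hq
      have := hN.finite_fiber h q.2
      refine Set.Finite.of_finite_image (f := Subtype.val) (this.subset ?_)
        Subtype.val_injective.injOn
      rintro _ ⟨x, hx, rfl⟩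
      exact ⟨x.2, congrArg Subtype.val hx⟩
    · rw [isLocalHomeomorphOn_iff_isOpenEmbedding_restrict]
      intro x hx
      have hxB : (x : E) ∉ Br D g := fun hB => hx.2 ⟨x, ⟨hB, x.2⟩, rfl⟩
      have : ∃ U : Set E, IsOpen U ∧ (x : E) ∈ U ∧ U ⊆ D ∧ InjOn g U := by
        by_contra hcon
        push Not at hcon
        exact hxB ⟨hN.NU_sub x.2, hcon⟩
      obtain ⟨U, hU, hxU, hUD, hinj⟩ := this
      refine ⟨Subtype.val ⁻¹' U, (hU.preimage continuous_subtype_val).mem_nhds hxU, ?_⟩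
      have ho : IsOpen (Subtype.val ⁻¹' U : Set (NU g x0 ε r)) := hU.preimage continuous_subtype_val
      refine Topology.IsOpenEmbedding.of_continuous_injective_isOpenMap ?_ ?_ ?_
      · exact (hN.cont_pV h).comp continuous_subtype_val
      · intro a b hab
        have : g (a : NU g x0 ε r) = g (b : NU g x0 ε r) := congrArg Subtype.val hab
        exact Subtype.ext (Subtype.ext (hinj a.2 b.2 this))
      · exact (hN.isOpenMap_pV h).comp ho.isOpenMap_subtype_val
  intro q hq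
  have h1 := key ⟨q, hq.1⟩ hq
  exact (IsEvenlyCovered.subtypeVal_comp _ isOpen_ball h1).to_isEvenlyCovered_preimage

end Run7.h379
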