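import Pool.Agent.Run7.h379.Loc

/-!
# The core theorem: sections or trivial slices
-/

set_option autoImplicit false
set_option linter.unusedSectionVars false

open Set Topology unitInterval

namespace Run7.h379

/-- a nonempty countable locally compact Hausdorff set has an isolated point -/
theorem exists_isolated {F : Type*} [TopologicalSpace F] [T2Space F] [LocallyCompactSpace F]
    {S : Set F} (hS : IsLocallyClosed S) (hc : S.Countable) (hne : S.Nonempty) :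
    ∃ w ∈ S, ∃ V : Set F, IsOpen V ∧ w ∈ V ∧ ∀ v ∈ S, v ∈ V → v = w := by
  have : LocallyCompactSpace S := hS.locallyCompactSpace
  have : Countable S := hc.to_subtype
  have : Nonempty S := hne.to_subtype
  obtain ⟨w, v, hv⟩ := nonempty_interior_of_iUnion_of_closed (X := S) (f := fun w : S => {w})
    (fun w => isClosed_singleton) (by ext x; simp)
  have hv2 : v = w := by
    have := interior_subset hv
    simpa using this
  subst hv2
  have hop : IsOpen (interior ({v} : Set S)) := isOpen_interior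
  obtain ⟨V, hV, hVe⟩ := isOpen_induced_iff.1 hop
  refine ⟨v, v.2, V, hV, ?_, ?_⟩
  · have : v ∈ (Subtype.val ⁻¹' V : Set S) := by rw [hVe]; exact hv
    exact this
  · intro x hx hxV
    have : (⟨x, hx⟩ : S) ∈ (Subtype.val ⁻¹' V : Set S) := hxV
    rw [hVe] at this
    have := interior_subset this
    exact congrArg Subtype.val this

/-- the rational rectangles -/
def RR (k : (ℚ × ℚ) × (ℚ × ℚ)) : Set (ℝ × ℝ) := Rect k.1.1 k.1.2 k.2.1 k.2.2

theorem exists_RR {V : Set (ℝ × ℝ)} (hV : IsOpen V) {w : ℝ × ℝ} (hw : w ∈ V) :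
    ∃ k, w ∈ RR k ∧ RR k ⊆ V := by
  obtain ⟨ε, hε, hball⟩ := Metric.isOpen_iff.1 hV _ hw
  rw [ball_eq_Rect] at hball
  obtain ⟨q1, h1, h1'⟩ := exists_rat_btwn (show w.1 - ε < w.1 by linarith)
  obtain ⟨q2, h2, h2'⟩ := exists_rat_btwn (show w.1 < w.1 + ε by linarith)
  obtain ⟨q3, h3, h3'⟩ := exists_rat_btwn (show w.2 - ε < w.2 by linarith)
  obtain ⟨q4, h4, h4'⟩ := exists_rat_btwn (show w.2 < w.2 + ε by linarith)
  exact ⟨((q1, q2), (q3, q4)), ⟨⟨h1', h2⟩, h3', h4⟩,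
    (Rect_mono h1.le h2'.le h3.le h4'.le).trans hball⟩

variable {X M : Type*} [TopologicalSpace X] [NormedAddCommGroup M] [NormedSpace ℝ M]
  {p : X → M × (ℝ × ℝ)} {Z : Set (M × (ℝ × ℝ))}

theorem core (hp : IsCoveringMapOn p Z) (hpc : Continuous p) (hZ : IsOpen Z)
    {O : Set M} (hO : IsOpen O) {A0 B0 C0 D0 : ℝ}
    (htd : ∀ y ∈ O, IsTotallyDisconnected (Rect A0 B0 C0 D0 \ {w | (y, w) ∈ Z}))
    (hcount : ∀ O' ⊆ O, IsOpen O' → O'.Nonempty →
      ¬ IsMeagre {y | y ∈ O' ∧ (Rect A0 B0 C0 D0 \ {w | (y, w) ∈ Z}).Countable}) :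
    (∃ O' ⊆ O, IsOpen O' ∧ O'.Nonempty ∧ ∃ z : M → ℝ × ℝ, ContinuousOn z O' ∧
      ∀ y ∈ O', z y ∈ Rect A0 B0 C0 D0 ∧ (y, z y) ∉ Z) ∨
    ∀ y ∈ O, Tr p (Sl Z y (Rect A0 B0 C0 D0)) := by
  set W := Rect A0 B0 C0 D0 with hW
  have hWo : IsOpen W := isOpen_Rect _ _ _ _
  let K : Set ((ℚ × ℚ) × (ℚ × ℚ)) := {k | RR k ⊆ W}
  let S : (ℚ × ℚ) × (ℚ × ℚ) → Set M := fun k => O ∩ {y | ¬ Tr p (Sl Z y (RR k))}
  have hSo : ∀ k, IsOpen (S k) := fun k => hO.inter (isOpen_bad hp hpc hZ _)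
  let Δ : (ℚ × ℚ) × (ℚ × ℚ) → Set M := fun k =>
    ⋃ j, ⋃ l, {y | RR j ⊆ RR k ∧ RR l ⊆ RR k ∧ Disjoint (RR j) (RR l) ∧ y ∈ S j ∧ y ∈ S l}
  have hΔo : ∀ k, IsOpen (Δ k) := by
    intro k
    refine isOpen_iUnion fun j => isOpen_iUnion fun l => ?_
    by_cases h : RR j ⊆ RR k ∧ RR l ⊆ RR k ∧ Disjoint (RR j) (RR l)
    · have : {y | RR j ⊆ RR k ∧ RR l ⊆ RR k ∧ Disjoint (RR j) (RR l) ∧ y ∈ S j ∧ y ∈ S l}
          = S j ∩ S l := by
        ext y
        exact ⟨fun h' => h'.2.2.2, fun h' => ⟨h.1, h.2.1, h.2.2, h'⟩⟩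
      rw [this]
      exact (hSo j).inter (hSo l)
    · have : {y | RR j ⊆ RR k ∧ RR l ⊆ RR k ∧ Disjoint (RR j) (RR l) ∧ y ∈ S j ∧ y ∈ S l}
          = ∅ := by
        ext y
        constructor
        · rintro ⟨h1, h2, h3, -⟩
          exact absurd ⟨h1, h2, h3⟩ h
        · intro h'; exact h'.elim
      rw [this]
      exact isOpen_empty
  -- essential points in rectangles
  have exE : ∀ k ∈ K, ∀ y ∈ S k, ∃ w ∈ RR k, Ess p Z y w := by
    intro k hk y hy
    exact exists_ess hp hpc hZ (htd y hy.1) hk hy.2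
  have mE : ∀ k, ∀ y ∈ O, ∀ w ∈ RR k, Ess p Z y w → y ∈ S k := by
    intro k y hy w hw hE
    exact ⟨hy, hE.not_tr (isOpen_Rect _ _ _ _) hw⟩
  by_cases hA : ∃ k ∈ K, ∃ O', IsOpen O' ∧ O'.Nonempty ∧ O' ⊆ S k ∧ Disjoint O' (Δ k)
  · -- sections
    left
    obtain ⟨k, hk, O', hO', hne, hsub, hdis⟩ := hA
    have ex : ∀ y ∈ O', ∃ w ∈ RR k, Ess p Z y w := fun y hy => exE k hk y (hsub hy)
    have uniq : ∀ y ∈ O', ∀ w ∈ RR k, ∀ w' ∈ RR k, Ess p Z y w → Ess p Z y w' → w = w' := by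
      intro y hy w hw w' hw' hE hE'
      by_contra hww
      obtain ⟨U, U', hU, hU', hwU, hwU', hUU⟩ := t2_separation hww
      obtain ⟨j, hj, hjs⟩ := exists_RR (hU.inter (isOpen_Rect _ _ _ _)) ⟨hwU, hw⟩
      obtain ⟨l, hl, hls⟩ := exists_RR (hU'.inter (isOpen_Rect _ _ _ _)) ⟨hwU', hw'⟩
      apply disjoint_left.1 hdis hy
      simp only [Δ, mem_iUnion]
      refine ⟨j, l, hjs.trans inter_subset_right, hls.trans inter_subset_right,
        hUU.mono (hjs.trans inter_subset_left) (hls.trans inter_subset_left), ?_, ?_⟩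
      · exact mE j y (hsub hy).1 w hj hE
      · exact mE l y (hsub hy).1 w' hl hE'
    classical
    let z : M → ℝ × ℝ := fun y => if h : y ∈ O' then (ex y h).choose else 0
    have hz : ∀ y ∈ O', z y ∈ RR k ∧ Ess p Z y (z y) := by
      intro y hy
      have : z y = (ex y hy).choose := dif_pos hy
      rw [this]
      exact (ex y hy).choose_spec
    refine ⟨O', fun y hy => (hsub hy).1, hO', hne, z, ?_, ?_⟩
    · intro y hy
      rw [ContinuousWithinAt, Filter.tendsto_def]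
      intro V hV
      obtain ⟨V', hV'V, hV', hyV'⟩ := mem_nhds_iff.1 hV
      obtain ⟨j, hj, hjs⟩ := exists_RR (hV'.inter (isOpen_Rect k.1.1 k.1.2 k.2.1 k.2.2))
        ⟨hyV', (hz y hy).1⟩
      have hyS : y ∈ S j := mE j y (hsub hy).1 _ hj (hz y hy).2
      have hjk : RR j ⊆ RR k := hjs.trans inter_subset_right
      filter_upwards [inter_mem_nhdsWithin O' ((hSo j).mem_nhds hyS)] with y' hy'
      obtain ⟨w, hw, hE⟩ := exE j (hjk.trans hk) y' hy'.2
      have := uniq y' hy'.1 w (hjk hw) (z y') (hz y' hy'.1).1 hE (hz y' hy'.1).2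
      apply hV'V
      show z y' ∈ V'
      rw [← this]
      exact (hjs hw).1
    · intro y hy
      exact ⟨hk (hz y hy).1, (hz y hy).2.not_mem hp hpc hZ⟩
  · right
    push Not at hA
    -- all the sets `S k` are empty
    have hfr : ∀ k ∈ K, S k ⊆ closure (Δ k) := by
      intro k hk y hy
      rw [mem_closure_iff]
      intro V hV hyV
      have := hA k hk (S k ∩ V) ((hSo k).inter hV) ⟨y, hy, hyV⟩ inter_subset_left
      rw [not_disjoint_iff] at this
      obtain ⟨x, hx1, hx2⟩ := this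
      exact ⟨x, hx1.2, hx2⟩
    have hN : ∀ k ∈ K, IsMeagre (S k \ Δ k) := by
      intro k hk
      have h1 : IsNowhereDense (frontier (Δ k)) := by
        rw [isClosed_frontier.isNowhereDense_iff, ← frontier_compl]
        exact interior_frontier (hΔo k).isClosed_compl
      refine h1.isMeagre.mono ?_
      rintro y ⟨hy1, hy2⟩
      rw [(hΔo k).frontier_eq]
      exact ⟨hfr k hk hy1, hy2⟩
    have hempty : ∀ k ∈ K, S k = ∅ := by
      intro k0 hk0
      by_contra hne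
      rw [← ne_eq, ← nonempty_iff_ne_empty] at hne
      have h1 := hcount (S k0) (fun y hy => hy.1) (hSo k0) hne
      have h2 : IsMeagre (⋃ k : K, (S k \ Δ k)) := isMeagre_iUnion fun k => hN k k.2
      obtain ⟨y, ⟨hyS, hyc⟩, hyN⟩ : ∃ y, (y ∈ S k0 ∧ (W \ {w | (y, w) ∈ Z}).Countable) ∧
          y ∉ ⋃ k : K, (S k \ Δ k) := by
        by_contra hcon
        push Not at hcon
        exact h1 (h2.mono fun y hy => hcon y hy)
      have hgen : ∀ k ∈ K, y ∈ S k → y ∈ Δ k := by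
        intro k hk hy
        by_contra hyΔ
        exact hyN (mem_iUnion.2 ⟨⟨k, hk⟩, hy, hyΔ⟩)
      have hE : IsLocallyClosed (W ∩ {w | Ess p Z y w}) :=
        hWo.isLocallyClosed.inter (isClosed_ess y).isLocallyClosed
      have hEsub : W ∩ {w | Ess p Z y w} ⊆ W \ {w | (y, w) ∈ Z} := by
        intro w hw
        exact ⟨hw.1, Ess.not_mem hp hpc hZ hw.2⟩
      have hEc : (W ∩ {w | Ess p Z y w}).Countable := hyc.mono hEsub
      obtain ⟨w0, hw0, hw0E⟩ := exE k0 hk0 y hyS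
      have hEne : (W ∩ {w | Ess p Z y w}).Nonempty := ⟨w0, hk0 hw0, hw0E⟩
      obtain ⟨w, ⟨hwW, hwE⟩, V, hV, hwV, hiso⟩ := exists_isolated hE hEc hEne
      obtain ⟨k, hk, hks⟩ := exists_RR (w := w) (hV.inter hWo) ⟨hwV, hwW⟩
      have hkK : k ∈ K := hks.trans inter_subset_right
      have h3 := hgen k hkK (mE k y hyS.1 w hk hwE)
      simp only [Δ, mem_iUnion] at h3
      obtain ⟨j, l, hj, hl, hdis, hyj, hyl⟩ := h3
      obtain ⟨wj, hwj, hEj⟩ := exE j (hj.trans hkK) y hyj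
      obtain ⟨wl, hwl, hEl⟩ := exE l (hl.trans hkK) y hyl
      have e1 := hiso wj ⟨hkK (hj hwj), hEj⟩ (hks (hj hwj)).1
      have e2 := hiso wl ⟨hkK (hl hwl), hEl⟩ (hks (hl hwl)).1
      rw [e1] at hwj
      rw [e2] at hwl
      exact disjoint_left.1 hdis hwj hwl
    intro y hy
    by_contra hT
    obtain ⟨w, hw, hE⟩ := exists_ess hp hpc hZ (htd y hy) (a := A0) (b := B0) (c := C0) (d := D0)
      subset_rfl hT
    obtain ⟨k, hk, hks⟩ := exists_RR hWo hw
    have := mE k y hy w hk hE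
    rw [hempty k hks] at this
    exact this

end Run7.h379
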