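import Mathlib

/-!
# Triviality of the monodromy of a covering over a set

`Tr p A`: every path upstairs whose projection is a loop in `A` is a loop.
-/

set_option autoImplicit false
set_option linter.unusedSectionVars false

open Set Topology unitInterval

namespace Run7.h379

section lift

variable {X P : Type*} [TopologicalSpace X] [TopologicalSpace P] {p : X → P} {Z : Set P}

/-- homotopy lifting for a map which is a covering over `Z` -/
theorem exists_lift {A : Type*} [TopologicalSpace A] (hp : IsCoveringMapOn p Z)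
    (H : C(I × A, P)) (hH : ∀ q, H q ∈ Z) (f : C(A, X)) (h0 : ∀ a, H (0, a) = p (f a)) :
    ∃ G : C(I × A, X), (∀ q, p (G q) = H q) ∧ ∀ a, G (0, a) = f a := by
  have cov := hp.isCoveringMap_restrictPreimage
  let H' : C(I × A, Z) := ⟨fun q => ⟨H q, hH q⟩, by fun_prop⟩
  let f' : C(A, p ⁻¹' Z) := ⟨fun a => ⟨f a, by
    show p (f a) ∈ Z
    rw [← h0]; exact hH _⟩, by fun_prop⟩
  have h0' : ∀ a, H' (0, a) = Z.restrictPreimage p (f' a) := fun a => Subtype.ext (h0 a)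
  let G' := cov.liftHomotopy H' f' h0'
  refine ⟨⟨fun q => (G' q : X), by fun_prop⟩, fun q => ?_, fun a => ?_⟩
  · have := congrFun (cov.liftHomotopy_lifts H' f' h0') q
    exact congrArg Subtype.val this
  · have := cov.liftHomotopy_zero H' f' h0' a
    exact congrArg Subtype.val this

/-- uniqueness of lifts -/
theorem lift_unique {A : Type*} [TopologicalSpace A] [PreconnectedSpace A]
    (hp : IsCoveringMapOn p Z) {g1 g2 : A → X} (h1 : Continuous g1) (h2 : Continuous g2)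
    (hZ : ∀ a, p (g1 a) ∈ Z) (h : ∀ a, p (g1 a) = p (g2 a)) (a : A) (ha : g1 a = g2 a) :
    ∀ b, g1 b = g2 b := by
  have cov := hp.isCoveringMap_restrictPreimage
  let g1' : A → p ⁻¹' Z := fun a => ⟨g1 a, hZ a⟩
  let g2' : A → p ⁻¹' Z := fun a => ⟨g2 a, by
    show p (g2 a) ∈ Z
    rw [← h]; exact hZ a⟩
  have e := cov.eq_of_comp_eq (g₁ := g1') (g₂ := g2') (by fun_prop) (by fun_prop)
    (funext fun a => Subtype.ext (h a)) a (Subtype.ext ha)
  intro b
  exact congrArg Subtype.val (congrFun e b)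

/-- path lifting -/
theorem exists_path_lift (hp : IsCoveringMapOn p Z) (c : C(I, P)) (hc : ∀ t, c t ∈ Z) (x : X)
    (h0 : c 0 = p x) : ∃ G : C(I, X), (∀ t, p (G t) = c t) ∧ G 0 = x := by
  obtain ⟨G, h1, h2⟩ := exists_lift (A := Unit) hp ⟨fun q => c q.1, by fun_prop⟩
    (fun q => hc _) ⟨fun _ => x, by fun_prop⟩ (fun _ => h0)
  exact ⟨⟨fun t => G (t, ()), by fun_prop⟩, fun t => h1 _, h2 ()⟩

/-- every path upstairs whose projection is a loop in `A` is a loop -/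
def Tr (p : X → P) (A : Set P) : Prop :=
  ∀ γ : C(I, X), (∀ t, p (γ t) ∈ A) → p (γ 0) = p (γ 1) → γ 0 = γ 1

theorem Tr.mono {A B : Set P} (h : Tr p B) (hAB : A ⊆ B) : Tr p A :=
  fun γ h1 h2 => h γ (fun t => hAB (h1 t)) h2

/-- the joining relation in the preimage -/
def Jn (p : X → P) (A : Set P) (x y : X) : Prop :=
  ∃ γ : C(I, X), (∀ t, p (γ t) ∈ A) ∧ γ 0 = x ∧ γ 1 = y

theorem Tr.eq {A : Set P} (h : Tr p A) {x y : X} (hj : Jn p A x y) (hxy : p x = p y) : x = y := by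
  obtain ⟨γ, h1, rfl, rfl⟩ := hj
  exact h γ h1 hxy

theorem Jn.iff_joinedIn {A : Set P} {x y : X} : Jn p A x y ↔ JoinedIn (p ⁻¹' A) x y := by
  constructor
  · rintro ⟨γ, h1, h2, h3⟩
    exact ⟨⟨γ, h2, h3⟩, fun t => h1 t⟩
  · rintro ⟨γ, h⟩
    exact ⟨γ.toContinuousMap, fun t => h t, γ.source, γ.target⟩

theorem Jn.symm {A : Set P} {x y : X} (h : Jn p A x y) : Jn p A y x :=
  Jn.iff_joinedIn.2 (Jn.iff_joinedIn.1 h).symm

theorem Jn.trans {A : Set P} {x y z : X} (h : Jn p A x y) (h' : Jn p A y z) : Jn p A x z :=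
  Jn.iff_joinedIn.2 ((Jn.iff_joinedIn.1 h).trans (Jn.iff_joinedIn.1 h'))

theorem Jn.mono {A B : Set P} {x y : X} (h : Jn p A x y) (hAB : A ⊆ B) : Jn p B x y := by
  obtain ⟨γ, h1, h2⟩ := h
  exact ⟨γ, fun t => hAB (h1 t), h2⟩

theorem Jn.refl {A : Set P} {x : X} (h : p x ∈ A) : Jn p A x x :=
  ⟨⟨fun _ => x, by fun_prop⟩, fun _ => h, rfl, rfl⟩

theorem Jn.mem_left {A : Set P} {x y : X} (h : Jn p A x y) : p x ∈ A := by
  obtain ⟨γ, h1, rfl, -⟩ := h
  exact h1 0

theorem Jn.mem_right {A : Set P} {x y : X} (h : Jn p A x y) : p y ∈ A := by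
  obtain ⟨γ, h1, -, rfl⟩ := h
  exact h1 1

/-- `γ` restricted to a subinterval -/
theorem Jn.of_sub {A : Set P} (γ : C(I, X)) (s t : I) (h : ∀ u ∈ uIcc s t, p (γ u) ∈ A) :
    Jn p A (γ s) (γ t) := by
  let g : I → I := fun τ => ⟨(1 - (τ : ℝ)) * s + τ * t, by
    have h1 := τ.2.1
    have h2 := τ.2.2
    have h3 := s.2.1
    have h4 := s.2.2
    have h5 := t.2.1
    have h6 := t.2.2
    constructor
    · nlinarith [mul_nonneg (sub_nonneg.2 h2) h3, mul_nonneg h1 h5]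
    · nlinarith [mul_nonneg (sub_nonneg.2 h2) (sub_nonneg.2 h4), mul_nonneg h1 (sub_nonneg.2 h6)]⟩
  have hg : Continuous g := by
    refine Continuous.subtype_mk ?_ _
    fun_prop
  refine ⟨⟨fun τ => γ (g τ), by fun_prop⟩, ?_, ?_, ?_⟩
  · intro τ
    refine h _ ?_
    have h1 := τ.2.1
    have h2 := τ.2.2
    rcases le_total s t with hst | hst
    · rw [uIcc_of_le hst]
      have hst' : (s : ℝ) ≤ t := hst
      constructor
      · show (s : ℝ) ≤ (1 - (τ : ℝ)) * s + τ * t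
        nlinarith [mul_nonneg h1 (sub_nonneg.2 hst')]
      · show (1 - (τ : ℝ)) * s + τ * t ≤ (t : ℝ)
        nlinarith [mul_nonneg (sub_nonneg.2 h2) (sub_nonneg.2 hst')]
    · rw [uIcc_of_ge hst]
      have hst' : (t : ℝ) ≤ s := hst
      constructor
      · show (t : ℝ) ≤ (1 - (τ : ℝ)) * s + τ * t
        nlinarith [mul_nonneg (sub_nonneg.2 h2) (sub_nonneg.2 hst')]
      · show (1 - (τ : ℝ)) * s + τ * t ≤ (s : ℝ)
        nlinarith [mul_nonneg h1 (sub_nonneg.2 hst')]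
  · show γ (g 0) = γ s
    congr 1
    ext
    simp [g]
  · show γ (g 1) = γ t
    congr 1
    ext
    simp [g]

/-- lifting of joins downstairs -/
theorem exists_jn (hp : IsCoveringMapOn p Z) {A : Set P} (hAZ : A ⊆ Z) {x : X} {q : P}
    (h : JoinedIn A (p x) q) : ∃ y, Jn p A x y ∧ p y = q := by
  obtain ⟨c, hc⟩ := h
  obtain ⟨G, h1, h2⟩ := exists_path_lift hp c.toContinuousMap (fun t => hAZ (hc t)) x
    (by simp)
  refine ⟨G 1, ⟨G, fun t => ?_, h2, rfl⟩, ?_⟩
  · rw [h1]; exact hc t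
  · rw [h1]; simp

theorem exists_nhds_uIcc {S : Set I} (hS : IsOpen S) {t : I} (ht : t ∈ S) :
    ∃ V ∈ 𝓝 t, (∀ s ∈ V, ∀ u ∈ uIcc s t, u ∈ V) ∧ V ⊆ S := by
  obtain ⟨ε, hε, h⟩ := Metric.isOpen_iff.1 hS t ht
  refine ⟨Metric.ball t ε, Metric.ball_mem_nhds t hε, ?_, h⟩
  intro s hs u hu
  rw [Metric.mem_ball, Subtype.dist_eq, Real.dist_eq, abs_lt] at hs ⊢
  rcases le_total s t with hst | hst
  · rw [uIcc_of_le hst] at hu
    have h1 : (s : ℝ) ≤ u := hu.1
    have h2 : (u : ℝ) ≤ t := hu.2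
    constructor <;> linarith [hs.1, hs.2]
  · rw [uIcc_of_ge hst] at hu
    have h1 : (t : ℝ) ≤ u := hu.1
    have h2 : (u : ℝ) ≤ s := hu.2
    constructor <;> linarith [hs.1, hs.2]

/-- gluing -/
theorem Tr.glue (hp : IsCoveringMapOn p Z) {A B A' B' : Set P} (hAZ : A ⊆ Z) (hBZ : B ⊆ Z)
    (hA' : IsOpen A') (hB' : IsOpen B') (hA : (A ∪ B) ∩ A' = A) (hB : (A ∪ B) ∩ B' = B)
    (hpc : Continuous p)
    (hAc : IsPathConnected A) (hBc : IsPathConnected B) (hABc : IsPathConnected (A ∩ B))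
    (h1 : Tr p A) (h2 : Tr p B) : Tr p (A ∪ B) := by
  obtain ⟨q0, ⟨hq0A, hq0B⟩, hq0⟩ := hABc
  -- labels
  have exA : ∀ x, p x ∈ A → ∃ e, Jn p A x e ∧ p e = q0 := fun x hx =>
    exists_jn hp hAZ (hAc.joinedIn _ hx _ hq0A)
  have exB : ∀ x, p x ∈ B → ∃ e, Jn p B x e ∧ p e = q0 := fun x hx =>
    exists_jn hp hBZ (hBc.joinedIn _ hx _ hq0B)
  have agree : ∀ x e e', Jn p A x e → Jn p B x e' → p e = q0 → p e' = q0 → e = e' := by
    intro x e e' he he' hq hq'
    have hx : p x ∈ A ∩ B := ⟨he.mem_left, he'.mem_left⟩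
    obtain ⟨f, hf, hfq⟩ := exists_jn hp (inter_subset_left.trans hAZ) (hq0 hx).symm
    have e1 : e = f := h1.eq (he.symm.trans (hf.mono inter_subset_left)) (hq.trans hfq.symm)
    have e2 : e' = f := h2.eq (he'.symm.trans (hf.mono inter_subset_right)) (hq'.trans hfq.symm)
    rw [e1, e2]
  have uA : ∀ x e e', Jn p A x e → Jn p A x e' → p e = q0 → p e' = q0 → e = e' :=
    fun x e e' he he' hq hq' => h1.eq (he.symm.trans he') (hq.trans hq'.symm)
  have uB : ∀ x e e', Jn p B x e → Jn p B x e' → p e = q0 → p e' = q0 → e = e' :=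
    fun x e e' he he' hq hq' => h2.eq (he.symm.trans he') (hq.trans hq'.symm)
  intro γ hγ h01
  have ex : ∀ t, ∃ e, p e = q0 ∧ (Jn p A (γ t) e ∨ Jn p B (γ t) e) := by
    intro t
    rcases hγ t with h | h
    · obtain ⟨e, he, hq⟩ := exA _ h
      exact ⟨e, hq, Or.inl he⟩
    · obtain ⟨e, he, hq⟩ := exB _ h
      exact ⟨e, hq, Or.inr he⟩
  choose l hl0 hl using ex
  have ul : ∀ t e, p e = q0 → (Jn p A (γ t) e ∨ Jn p B (γ t) e) → e = l t := by
    intro t e he h
    rcases h with h | h <;> rcases hl t with h' | h'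
    · exact uA _ _ _ h h' he (hl0 t)
    · exact agree _ _ _ h h' he (hl0 t)
    · exact (agree _ _ _ h' h (hl0 t) he).symm
    · exact uB _ _ _ h h' he (hl0 t)
  have loc : IsLocallyConstant l := by
    rw [IsLocallyConstant.iff_eventually_eq]
    intro t
    rcases hγ t with h | h
    · have hopen : IsOpen {s | p (γ s) ∈ A'} := hA'.preimage (hpc.comp γ.continuous)
      have htA' : t ∈ {s | p (γ s) ∈ A'} := by
        rw [← hA] at h; exact h.2
      obtain ⟨V, hV, hVc, hVsub⟩ := exists_nhds_uIcc hopen htA'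
      filter_upwards [hV] with s hs
      have hj : Jn p A (γ s) (γ t) := Jn.of_sub γ s t fun u hu => by
        have hu' := hVc s hs u hu
        have : p (γ u) ∈ (A ∪ B) ∩ A' := ⟨hγ u, hVsub hu'⟩
        rwa [hA] at this
      obtain ⟨e, he, hq⟩ := exA _ h
      rw [← ul t e hq (Or.inl he), ← ul s e hq (Or.inl (hj.trans he))]
    · have hopen : IsOpen {s | p (γ s) ∈ B'} := hB'.preimage (hpc.comp γ.continuous)
      have htB' : t ∈ {s | p (γ s) ∈ B'} := by
        rw [← hB] at h; exact h.2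
      obtain ⟨V, hV, hVc, hVsub⟩ := exists_nhds_uIcc hopen htB'
      filter_upwards [hV] with s hs
      have hj : Jn p B (γ s) (γ t) := Jn.of_sub γ s t fun u hu => by
        have hu' := hVc s hs u hu
        have : p (γ u) ∈ (A ∪ B) ∩ B' := ⟨hγ u, hVsub hu'⟩
        rwa [hB] at this
      obtain ⟨e, he, hq⟩ := exB _ h
      rw [← ul t e hq (Or.inr he), ← ul s e hq (Or.inr (hj.trans he))]
  have hll : l 0 = l 1 := loc.apply_eq_of_preconnectedSpace 0 1
  rcases hγ 0 with h | h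
  · obtain ⟨e, he, hq⟩ := exA _ h
    obtain ⟨e', he', hq'⟩ := exA (γ 1) (h01 ▸ h)
    have e1 := ul 0 e hq (Or.inl he)
    have e2 := ul 1 e' hq' (Or.inl he')
    have : e = e' := by rw [e1, e2, hll]
    subst this
    exact h1.eq (he.trans he'.symm) h01
  · obtain ⟨e, he, hq⟩ := exB _ h
    obtain ⟨e', he', hq'⟩ := exB (γ 1) (h01 ▸ h)
    have e1 := ul 0 e hq (Or.inr he)
    have e2 := ul 1 e' hq' (Or.inr he')
    have : e = e' := by rw [e1, e2, hll]
    subst this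
    exact h2.eq (he.trans he'.symm) h01

end lift

section convex

variable {X P : Type*} [TopologicalSpace X] [NormedAddCommGroup P] [NormedSpace ℝ P]
  {p : X → P} {Z : Set P}

/-- the monodromy over a convex set is trivial -/
theorem Tr.of_convex (hp : IsCoveringMapOn p Z) {A : Set P} (hAZ : A ⊆ Z) (hA : Convex ℝ A)
    (hpc : Continuous p) : Tr p A := by
  intro γ hγ h01
  let H : C(I × I, P) := ⟨fun q => (1 - (q.1 : ℝ)) • p (γ q.2) + (q.1 : ℝ) • p (γ 0), by fun_prop⟩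
  have hH : ∀ q, H q ∈ Z := fun q => hAZ (hA (hγ q.2) (hγ 0) (by linarith [q.1.2.2]) q.1.2.1
    (by ring))
  obtain ⟨G, h1, h2⟩ := exists_lift hp H hH γ (fun a => by simp [H])
  have c0 : ∀ t : I, G (t, 0) = γ 0 := lift_unique hp (g1 := fun t : I => G (t, 0))
    (g2 := fun _ => γ 0) (by fun_prop) (by fun_prop) (fun t => by rw [h1]; exact hH _)
    (fun t => by
      rw [h1]
      show (1 - (t : ℝ)) • p (γ 0) + (t : ℝ) • p (γ 0) = p (γ 0)
      rw [← add_smul]; simp) 0 (h2 0)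
  have c1 : ∀ t : I, G (t, 1) = γ 1 := lift_unique hp (g1 := fun t : I => G (t, 1))
    (g2 := fun _ => γ 1) (by fun_prop) (by fun_prop) (fun t => by rw [h1]; exact hH _)
    (fun t => by
      rw [h1]
      show (1 - (t : ℝ)) • p (γ 1) + (t : ℝ) • p (γ 0) = p (γ 1)
      rw [h01, ← add_smul]; simp) 0 (h2 1)
  have c2 : ∀ t : I, G (1, t) = γ 0 := lift_unique hp (g1 := fun t : I => G (1, t))
    (g2 := fun _ => γ 0) (by fun_prop) (by fun_prop) (fun t => by rw [h1]; exact hH _)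
    (fun t => by
      rw [h1]
      show (1 - ((1 : I) : ℝ)) • p (γ t) + ((1 : I) : ℝ) • p (γ 0) = p (γ 0)
      simp) 0 (c0 1)
  rw [← c1 1, c2 1]

end convex

end Run7.h379
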