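import Pool.Agent.Helper562.CMLeb

/-!
# A set which contains an embedded open set of dimension `m` has covering dimension at least `m`
-/

set_option autoImplicit false
set_option linter.unusedSectionVars false

open Set Topology Metric

namespace Run7.h379

/-- covering dimension at most `k - 1`: every finite open cover has an open shrinking such that each
point lies in at most `k` of its members -/
def CD {E : Type*} [TopologicalSpace E] (B : Set E) (k : ℕ) : Prop :=
  ∀ (N : ℕ) (U : Fin N → Set E), (∀ i, IsOpen (U i)) → B ⊆ ⋃ i, U i →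
    ∃ V : Fin N → Set E, (∀ i, IsOpen (V i)) ∧ (∀ i, V i ⊆ U i) ∧ B ⊆ ⋃ i, V i ∧
      ∀ x ∈ B, Set.ncard {i : Fin N | x ∈ V i} ≤ k

theorem not_CD {E : Type*} [TopologicalSpace E] [T2Space E] {m : ℕ} {B : Set E}
    {O : Set (EuclideanSpace ℝ (Fin m))} (hO : IsOpen O) (hne : O.Nonempty)
    {k : EuclideanSpace ℝ (Fin m) → E} (hk : ContinuousOn k O) (hkB : MapsTo k O B)
    (hinj : InjOn k O) : ¬ CD B m := by
  intro hCD
  apply Pool.Agent.Helper562.CM.not_dimLE_cube m
  -- the cube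
  obtain ⟨c, hc⟩ := hne
  obtain ⟨δ, hδ, hball⟩ := Metric.isOpen_iff.1 hO c hc
  obtain ⟨s, hs, hsδ⟩ : ∃ s : ℝ, 0 < s ∧ ∀ t : Fin m → Icc (0 : ℝ) 1,
      c + s • (WithLp.toLp 2 fun i => (t i : ℝ) : EuclideanSpace ℝ (Fin m)) ∈ ball c δ := by
    refine ⟨δ / (m + 1), by positivity, fun t => ?_⟩
    rw [mem_ball, dist_eq_norm, add_sub_cancel_left, norm_smul, Real.norm_eq_abs,
      abs_of_pos (by positivity)]
    have h1 : ‖(WithLp.toLp 2 fun i => (t i : ℝ) : EuclideanSpace ℝ (Fin m))‖ ≤ m := by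
      rw [EuclideanSpace.norm_eq]
      have h2 : (∑ i, ‖(t i : ℝ)‖ ^ 2) ≤ (m : ℝ) ^ 2 := by
        calc (∑ i, ‖(t i : ℝ)‖ ^ 2) ≤ ∑ _i : Fin m, (1 : ℝ) := by
              apply Finset.sum_le_sum
              intro i _
              have h3 := (t i).2
              rw [Real.norm_eq_abs, abs_of_nonneg h3.1]
              nlinarith [h3.1, h3.2]
          _ = m := by simp
          _ ≤ (m : ℝ) ^ 2 := by
              rcases Nat.eq_zero_or_pos m with h0 | h0
              · subst h0; simp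
              · have : (1 : ℝ) ≤ m := by exact_mod_cast h0
                nlinarith
      calc √(∑ i, ‖(t i : ℝ)‖ ^ 2) ≤ √((m : ℝ) ^ 2) := Real.sqrt_le_sqrt h2
        _ = m := Real.sqrt_sq (by positivity)
    calc δ / (m + 1) * ‖(WithLp.toLp 2 fun i => (t i : ℝ) : EuclideanSpace ℝ (Fin m))‖
        ≤ δ / (m + 1) * m := mul_le_mul_of_nonneg_left h1 (by positivity)
      _ < δ := by
          rw [div_mul_eq_mul_div, div_lt_iff₀ (by positivity)]
          nlinarith
  let κ : (Fin m → Icc (0 : ℝ) 1) → EuclideanSpace ℝ (Fin m) := fun t =>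
    c + s • (WithLp.toLp 2 fun i => (t i : ℝ) : EuclideanSpace ℝ (Fin m))
  have hκc : Continuous κ := by
    have : Continuous fun t : Fin m → Icc (0 : ℝ) 1 =>
        (WithLp.toLp 2 fun i => (t i : ℝ) : EuclideanSpace ℝ (Fin m)) :=
      (PiLp.continuous_toLp 2 _).comp (by fun_prop)
    fun_prop
  have hκinj : Function.Injective κ := by
    intro a b hab
    have h1 : s • (WithLp.toLp 2 fun i => (a i : ℝ) : EuclideanSpace ℝ (Fin m)) =
        s • (WithLp.toLp 2 fun i => (b i : ℝ) : EuclideanSpace ℝ (Fin m)) := add_left_cancel hab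
    have h2 := smul_right_injective _ hs.ne' h1
    funext i
    have := congrArg (fun v : EuclideanSpace ℝ (Fin m) => v i) h2
    exact Subtype.ext this
  have hκO : ∀ t, κ t ∈ O := fun t => hball (hsδ t)
  let θ : (Fin m → Icc (0 : ℝ) 1) → E := fun t => k (κ t)
  have hθc : Continuous θ := hk.comp_continuous hκc hκO
  have hθinj : Function.Injective θ := fun a b hab => hκinj (hinj (hκO a) (hκO b) hab)
  have hθemb : Topology.IsClosedEmbedding θ := hθc.isClosedEmbedding hθinj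
  have hθB : ∀ t, θ t ∈ B := fun t => hkB (hκO t)
  intro 𝒰 h𝒰fin h𝒰o h𝒰cov
  classical
  obtain ⟨N, e, heq⟩ : ∃ (N : ℕ) (e : Fin N → Set (Fin m → Icc (0 : ℝ) 1)), range e = 𝒰 := by
    have := h𝒰fin.fintype
    obtain ⟨e⟩ : Nonempty (Fin (Fintype.card 𝒰) ≃ 𝒰) := ⟨(Fintype.equivFin 𝒰).symm⟩
    refine ⟨Fintype.card 𝒰, fun i => (e i : Set _), ?_⟩
    ext V
    constructor
    · rintro ⟨i, rfl⟩; exact (e i).2
    · intro hV; exact ⟨e.symm ⟨V, hV⟩, by simp⟩
  have hex : ∀ i, ∃ A : Set E, IsOpen A ∧ θ ⁻¹' A = e i := by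
    intro i
    exact hθemb.isInducing.isOpen_iff.1 (h𝒰o _ (heq ▸ mem_range_self i))
  choose A hAo hAe using hex
  obtain ⟨V, hVo, hVsub, hVcov, hVord⟩ := hCD (N + 1) (Fin.snoc A (range θ)ᶜ) (by
      intro i
      refine Fin.lastCases ?_ (fun j => ?_) i
      · rw [Fin.snoc_last]; exact hθemb.isClosed_range.isOpen_compl
      · rw [Fin.snoc_castSucc]; exact hAo j) (by
      intro x hx
      by_cases hxr : x ∈ range θ
      · obtain ⟨t, rfl⟩ := hxr
        have : t ∈ ⋃₀ 𝒰 := by rw [h𝒰cov]; trivial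
        obtain ⟨S, hS, htS⟩ := this
        rw [← heq] at hS
        obtain ⟨i, rfl⟩ := hS
        refine mem_iUnion.2 ⟨i.castSucc, ?_⟩
        rw [Fin.snoc_castSucc]
        rw [← hAe i] at htS
        exact htS
      · refine mem_iUnion.2 ⟨Fin.last N, ?_⟩
        rw [Fin.snoc_last]
        exact hxr)
  have hlast : ∀ t, θ t ∉ V (Fin.last N) := by
    intro t ht
    have := hVsub _ ht
    rw [Fin.snoc_last] at this
    exact this ⟨t, rfl⟩
  refine ⟨range fun i : Fin N => θ ⁻¹' V i.castSucc, finite_range _, ?_, ?_, ?_, ?_⟩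
  · rintro _ ⟨i, rfl⟩
    exact (hVo _).preimage hθc
  · ext t
    simp only [mem_univ, iff_true]
    obtain ⟨i, hi⟩ := mem_iUnion.1 (hVcov (hθB t))
    revert hi
    refine Fin.lastCases ?_ (fun j => ?_) i
    · intro hi; exact absurd hi (hlast t)
    · intro hi
      exact ⟨_, ⟨j, rfl⟩, hi⟩
  · rintro _ ⟨i, rfl⟩
    refine ⟨e i, heq ▸ mem_range_self i, ?_⟩
    intro t ht
    have := hVsub _ ht
    rw [Fin.snoc_castSucc] at this
    rw [← hAe i]
    exact this
  · intro t
    have h1 := hVord (θ t) (hθB t)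
    have h2 : {S | S ∈ (range fun i : Fin N => θ ⁻¹' V i.castSucc) ∧ t ∈ S} ⊆
        (fun i : Fin (N + 1) => θ ⁻¹' V i) '' {i | θ t ∈ V i} := by
      rintro _ ⟨⟨i, rfl⟩, ht⟩
      exact ⟨i.castSucc, ht, rfl⟩
    have h3 := Set.ncard_le_ncard h2 (toFinite _)
    have h4 := Set.ncard_image_le (f := fun i : Fin (N + 1) => θ ⁻¹' V i)
      (toFinite {i | θ t ∈ V i})
    have h5 : {S | S ∈ (range fun i : Fin N => θ ⁻¹' V i.castSucc) ∧ t ∈ S}.ncard ≤ m :=
      h3.trans (h4.trans h1)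
    have h6 : (({S | S ∈ (range fun i : Fin N => θ ⁻¹' V i.castSucc) ∧ t ∈ S}.ncard : ℕ) : ℤ) ≤ m := by
      exact_mod_cast h5
    linarith

end Run7.h379
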