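import Pool.Agent.Run7.h379.Branch
import Pool.Agent.Run7.h379.Core
import Pool.Agent.Helper607.Wild.IoD

/-!
# Trivial monodromy near a point implies local injectivity
-/

set_option autoImplicit false
set_option linter.unusedSectionVars false

open Set Topology Metric unitInterval

namespace Run7.h379

variable {E P : Type*} [NormedAddCommGroup E] [InnerProductSpace ℝ E] [FiniteDimensional ℝ E]
  [NormedAddCommGroup P] [NormedSpace ℝ P] [FiniteDimensional ℝ P]
  {D : Set E} {g : E → P} {x0 : E} {ε r : ℝ}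

/-- Suppose that `V1` is an open subset of the ball, containing `g x0`, over which the monodromy is
trivial, and `V1 ∩ Z` is connected, and every point of `V1` has arbitrarily small neighbourhoods
`N` such that `N ∩ Z` is path connected. Then `g` is injective near `x0`. -/
theorem Nb.inj_of_tr (hN : Nb D g x0 ε r) (h : OD D g) (hdim : Module.finrank ℝ E =
    Module.finrank ℝ P) {V1 : Set P} (hV1 : IsOpen V1) (hV1r : V1 ⊆ ball (g x0) r)
    (hx0V : g x0 ∈ V1) (hconn : IsPathConnected (V1 ∩ ZZ D g x0 ε r))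
    (hsmall : ∀ q ∈ V1, ∀ U ∈ 𝓝 q, ∃ N ∈ 𝓝 q, N ⊆ U ∧ IsPathConnected (N ∩ ZZ D g x0 ε r))
    (htr : Tr (pN g x0 ε r) (V1 ∩ ZZ D g x0 ε r)) : x0 ∉ Br D g := by
  set Z := ZZ D g x0 ε r with hZdef
  set p := pN g x0 ε r with hpdef
  have hcov : IsCoveringMapOn p Z := hN.isCoveringMapOn h
  have hpc : Continuous p := hN.cont_pN h
  have hdense : ∀ q ∈ V1, ∀ U ∈ 𝓝 q, (U ∩ (V1 ∩ Z)).Nonempty := by
    intro q hq U hU
    obtain ⟨N, -, hNU, hNc⟩ := hsmall q hq (U ∩ V1) (Filter.inter_mem hU (hV1.mem_nhds hq))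
    obtain ⟨z, hz⟩ := hNc.nonempty
    exact ⟨z, (hNU hz.1).1, (hNU hz.1).2, hz.2⟩
  -- base point and fibre
  obtain ⟨q1, hq1⟩ := hconn.nonempty
  let C : NU g x0 ε r → Set (NU g x0 ε r) := fun e => {x | Jn p (V1 ∩ Z) x e}
  have hfin : {e : NU g x0 ε r | p e = q1}.Finite := by
    have := hN.finite_fiber h (hV1r hq1.1)
    refine Set.Finite.of_finite_image (f := Subtype.val) (this.subset ?_)
      Subtype.val_injective.injOn
    rintro _ ⟨x, hx, rfl⟩
    exact ⟨x.2, hx⟩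
  let X0 : NU g x0 ε r := ⟨x0, hN.x0_mem⟩
  have hX0cl : X0 ∈ closure (⋃ e ∈ {e : NU g x0 ε r | p e = q1}, C e) := by
    rw [_root_.mem_closure_iff]
    intro U hU hX0U
    have h1 : IsOpen (pV g x0 ε r '' U) := hN.isOpenMap_pV h U hU
    have h2 : IsOpen (Subtype.val '' (pV g x0 ε r '' U)) := isOpen_ball.isOpenMap_subtype_val _ h1
    obtain ⟨z, hz1, hz2⟩ := hdense (g x0) hx0V _ (h2.mem_nhds ⟨_, ⟨X0, hX0U, rfl⟩, rfl⟩)
    obtain ⟨_, ⟨x, hx, rfl⟩, rfl⟩ := hz1
    refine ⟨x, hx, ?_⟩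
    have h3 : p x ∈ V1 ∩ Z := hz2
    obtain ⟨e, he, heq⟩ := exists_jn hcov inter_subset_right (hconn.joinedIn _ h3 _ hq1)
    rw [mem_iUnion₂]
    exact ⟨e, heq, he⟩
  rw [hfin.closure_biUnion, mem_iUnion₂] at hX0cl
  obtain ⟨e, he, hX0e⟩ := hX0cl
  -- the sheet
  let T : Set (NU g x0 ε r) := closure (C e) ∩ p ⁻¹' V1
  have hCe : ∀ x ∈ C e, ∀ x' ∈ C e, p x = p x' → x = x' := fun x hx x' hx' hxx' =>
    htr.eq (hx.trans hx'.symm) hxx'
  have hTinj : ∀ a ∈ T, ∀ b ∈ T, p a = p b → a = b := by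
    intro a ha b hb hab
    by_contra hne
    obtain ⟨A, B, hA, hB, haA, hbB, hAB⟩ := t2_separation hne
    -- normal neighbourhoods inside `A` and `B`
    have hA' : IsOpen (Subtype.val '' A : Set E) := (hN.isOpen_NU h).isOpenMap_subtype_val A hA
    have hB' : IsOpen (Subtype.val '' B : Set E) := (hN.isOpen_NU h).isOpenMap_subtype_val B hB
    obtain ⟨ηA, hηA, hballA⟩ := Metric.isOpen_iff.1 hA' a ⟨a, haA, rfl⟩
    obtain ⟨εa, ra, hεa, hNa⟩ := h.exists_Nb (hN.NU_sub a.2) hηA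
    have hεpos := hNa.εpos
    -- the small neighbourhood of `p a`
    have hpaV : p a ∈ V1 := ha.2
    have hBimg : Subtype.val '' (pV g x0 ε r '' B) ∈ 𝓝 (p a) := by
      have h1 : IsOpen (pV g x0 ε r '' B) := hN.isOpenMap_pV h B hB
      have h2 : IsOpen (Subtype.val '' (pV g x0 ε r '' B)) :=
        isOpen_ball.isOpenMap_subtype_val _ h1
      refine h2.mem_nhds ⟨_, ⟨b, hbB, rfl⟩, ?_⟩
      exact hab.symm
    obtain ⟨N, hNn, hNU, hNc⟩ := hsmall (p a) hpaV
      (ball (p a) ra ∩ V1) (Filter.inter_mem (ball_mem_nhds _ hNa.rpos) (hV1.mem_nhds hpaV))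
    -- points of `C e` near `a` and near `b`
    have hpreN : p ⁻¹' N ∈ 𝓝 a := hpc.continuousAt.preimage_mem_nhds hNn
    have hpreN' : p ⁻¹' N ∈ 𝓝 b := hpc.continuousAt.preimage_mem_nhds (hab ▸ hNn)
    have hballa : Subtype.val ⁻¹' ball (a : E) εa ∈ 𝓝 a :=
      (isOpen_ball.preimage continuous_subtype_val).mem_nhds (mem_ball_self hεpos)
    obtain ⟨z, hz1, hzC⟩ := mem_closure_iff_nhds.1 ha.1 _ (Filter.inter_mem hpreN hballa)
    obtain ⟨z', hz1', hzC'⟩ := mem_closure_iff_nhds.1 hb.1 _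
      (Filter.inter_mem hpreN' (hB.mem_nhds hbB))
    have hzZ : p z ∈ N ∩ Z := ⟨hz1.1, hzC.mem_left.2⟩
    have hzZ' : p z' ∈ N ∩ Z := ⟨hz1'.1, hzC'.mem_left.2⟩
    obtain ⟨w, hw, hwz⟩ := exists_jn hcov inter_subset_right (hNc.joinedIn _ hzZ _ hzZ')
    -- `w` lies in the small ball around `a`
    have hwA : w ∈ A := by
      obtain ⟨γ, hγ, hγ0, hγ1⟩ := hw
      have hcl : IsClopen {t : I | (γ t : E) ∈ ball (a : E) εa} := by
        constructor
        · have : {t : I | (γ t : E) ∈ ball (a : E) εa} =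
              {t : I | (γ t : E) ∈ closedBall (a : E) εa} := by
            ext t
            constructor
            · intro ht; exact ball_subset_closedBall ht
            · intro ht
              have h1 : g (γ t) ∈ ball (g a) ra := (hNU (hγ t).1).1
              exact (hNa.mem_ball ht h1).1
          rw [this]
          exact isClosed_closedBall.preimage (by fun_prop)
        · exact isOpen_ball.preimage (by fun_prop)
      have h0 : (0 : I) ∈ {t : I | (γ t : E) ∈ ball (a : E) εa} := by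
        show ((γ 0 : NU g x0 ε r) : E) ∈ ball (a : E) εa
        rw [hγ0]; exact hz1.2
      have huniv := hcl.eq_univ ⟨0, h0⟩
      have h1 : (1 : I) ∈ {t : I | (γ t : E) ∈ ball (a : E) εa} := by rw [huniv]; trivial
      have h2 : (w : E) ∈ ball (a : E) εa := by
        have : ((γ 1 : NU g x0 ε r) : E) ∈ ball (a : E) εa := h1
        rwa [hγ1] at this
      have h3 : (w : E) ∈ Subtype.val '' A := hballA (ball_subset_ball hεa.le h2)
      obtain ⟨w', hw', hww⟩ := h3
      have : w' = w := Subtype.ext hww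
      rwa [this] at hw'
    have hsubNV : N ∩ Z ⊆ V1 ∩ Z := by
      intro q hq
      exact ⟨(hNU hq.1).2, hq.2⟩
    have hwC : w ∈ C e := (hw.mono hsubNV).symm.trans hzC
    have hwz' : w = z' := hCe w hwC z' hzC' hwz
    rw [hwz'] at hwA
    exact disjoint_left.1 hAB hwA hz1'.2
  have hTsurj : ∀ q ∈ V1, ∃ x ∈ T, p x = q := by
    intro q hq
    have h1 : IsClosed (pV g x0 ε r '' closure (C e)) :=
      (hN.isProperMap_pV h).isClosedMap _ isClosed_closure
    have h2 : (⟨q, hV1r hq⟩ : ball (g x0) r) ∈ closure (pV g x0 ε r '' closure (C e)) := by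
      rw [mem_closure_iff_nhds]
      intro U hU
      have hU' : Subtype.val '' U ∈ 𝓝 q := by
        have := isOpen_ball.isOpenMap_subtype_val (s := ball (g x0) r)
        exact this.image_mem_nhds hU
      obtain ⟨z, hz1, hz2⟩ := hdense q hq _ hU'
      obtain ⟨z', hz', rfl⟩ := hz1
      refine ⟨z', hz', ?_⟩
      obtain ⟨e', he', hee'⟩ := exists_jn hcov (A := V1 ∩ Z) (x := e) (q := (z' : P))
        inter_subset_right (by
          have he1 : p e = q1 := he
          rw [he1]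
          exact hconn.joinedIn _ hq1 _ hz2)
      exact ⟨e', subset_closure he'.symm, Subtype.ext hee'⟩
    rw [h1.closure_eq] at h2
    obtain ⟨x, hx, hxq⟩ := h2
    have hxq' : p x = q := congrArg Subtype.val hxq
    exact ⟨x, ⟨hx, by show p x ∈ V1; rw [hxq']; exact hq⟩, hxq'⟩
  -- compact pieces
  obtain ⟨ρ, hρ, hρV⟩ := Metric.isOpen_iff.1 hV1 _ hx0V
  have hρ2 : closedBall (g x0) (ρ / 2) ⊆ V1 := (closedBall_subset_ball (by linarith)).trans hρV
  have : Nonempty (NU g x0 ε r) := ⟨X0⟩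
  choose! sg hsgT hsgp using hTsurj
  have hsgc : ContinuousOn (fun q => (sg q : E)) (closedBall (g x0) (ρ / 2)) := by
    rw [continuousOn_iff_isClosed]
    intro t ht
    refine ⟨pV g x0 ε r '' (closure (C e) ∩ Subtype.val ⁻¹' t ∩
      pV g x0 ε r ⁻¹' (Subtype.val ⁻¹' closedBall (g x0) (ρ / 2))) |> fun s => Subtype.val '' s,
      ?_, ?_⟩
    · have hK : IsCompact (pV g x0 ε r ⁻¹' (Subtype.val ⁻¹' closedBall (g x0) (ρ / 2))) := by
        refine (hN.isProperMap_pV h).isCompact_preimage ?_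
        rw [Topology.IsInducing.subtypeVal.isCompact_iff, Subtype.image_preimage_coe]
        have : ball (g x0) r ∩ closedBall (g x0) (ρ / 2) = closedBall (g x0) (ρ / 2) :=
          inter_eq_right.2 (hρ2.trans hV1r)
        rw [this]
        exact isCompact_closedBall _ _
      have hK2 := hK.inter_left (isClosed_closure (s := C e) |>.inter
        (ht.preimage (continuous_subtype_val (p := fun x => x ∈ NU g x0 ε r))))
      exact ((hK2.image (hN.cont_pV h)).image continuous_subtype_val).isClosed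
    · ext q
      constructor
      · rintro ⟨hq1, hq2⟩
        refine ⟨⟨_, ⟨sg q, ⟨⟨(hsgT q (hρ2 hq2)).1, hq1⟩, ?_⟩, rfl⟩, ?_⟩, hq2⟩
        · show p (sg q) ∈ closedBall (g x0) (ρ / 2)
          rw [hsgp q (hρ2 hq2)]; exact hq2
        · exact hsgp q (hρ2 hq2)
      · rintro ⟨⟨_, ⟨x, ⟨⟨hx1, hx2⟩, hx3⟩, rfl⟩, hxq⟩, hq2⟩
        refine ⟨?_, hq2⟩
        have hxq' : p x = q := hxq
        have : sg q = x := by
          refine hTinj _ (hsgT q (hρ2 hq2)) _ ⟨hx1, ?_⟩ ?_
          · show p x ∈ V1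
            rw [hxq']; exact hρ2 hq2
          · rw [hsgp q (hρ2 hq2), hxq']
        show (sg q : E) ∈ t
        rw [this]; exact hx2
  have hsginj : InjOn (fun q => (sg q : E)) (closedBall (g x0) (ρ / 2)) := by
    intro q hq q' hq' hqq
    have : sg q = sg q' := Subtype.ext hqq
    rw [← hsgp q (hρ2 hq), ← hsgp q' (hρ2 hq'), this]
  have hsgx0 : (sg (g x0) : E) = x0 := by
    have : sg (g x0) = X0 := by
      refine hTinj _ (hsgT _ hx0V) _ ⟨hX0e, hx0V⟩ ?_
      rw [hsgp _ hx0V]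
      rfl
    rw [this]
  -- invariance of domain
  obtain ⟨Φ⟩ : Nonempty (E ≃L[ℝ] P) := ⟨ContinuousLinearEquiv.ofFinrankEq hdim⟩
  let F : E → E := fun v => (sg (Φ v) : E)
  have hpre : Φ ⁻¹' (closedBall (g x0) (ρ / 2)) ∈ 𝓝 (Φ.symm (g x0)) := by
    apply Φ.continuous.continuousAt.preimage_mem_nhds
    rw [Φ.apply_symm_apply]
    exact closedBall_mem_nhds _ (by positivity)
  obtain ⟨ρ', hρ', hsub⟩ := Metric.nhds_basis_closedBall.mem_iff.1 hpre
  have himg := Pool.Agent.Helper607.Wild.IoD.image_mem_nhds F (Φ.symm (g x0)) ρ' hρ'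
    (hsgc.comp Φ.continuous.continuousOn fun v hv => hsub hv)
    (fun v hv v' hv' hvv => Φ.injective (hsginj (hsub hv) (hsub hv') hvv))
  have hF0 : F (Φ.symm (g x0)) = x0 := by
    show (sg (Φ (Φ.symm (g x0))) : E) = x0
    rw [Φ.apply_symm_apply, hsgx0]
  rw [hF0] at himg
  obtain ⟨U, hUsub, hUo, hx0U⟩ := _root_.mem_nhds_iff.1 himg
  intro hB
  refine hB.2 (U ∩ D) (hUo.inter h.isOpen) ⟨hx0U, hB.1⟩ inter_subset_right ?_
  rintro a ⟨ha, -⟩ b ⟨hb, -⟩ hab
  obtain ⟨v, hv, rfl⟩ := hUsub ha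
  obtain ⟨v', hv', rfl⟩ := hUsub hb
  have h1 : g (F v) = Φ v := hsgp _ (hρ2 (hsub hv))
  have h2 : g (F v') = Φ v' := hsgp _ (hρ2 (hsub hv'))
  rw [h1, h2] at hab
  rw [Φ.injective hab]

end Run7.h379
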