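import Pool.Agent.Run7.h379.Branch

/-!
# Lifting a graph in the image of the branch set to the branch set
-/

set_option autoImplicit false
set_option linter.unusedSectionVars false

open Set Topology Metric

namespace Run7.h379

variable {E P M : Type*} [NormedAddCommGroup E] [NormedSpace ℝ E] [FiniteDimensional ℝ E]
  [NormedAddCommGroup P] [NormedSpace ℝ P] [FiniteDimensional ℝ P]
  [TopologicalSpace M] [LocallyCompactSpace M] [T2Space M]
  {D : Set E} {g : E → P} {x0 : E} {ε r : ℝ}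

/-- Baire: a nonempty open set which is a countable union of relatively closed sets -/
theorem baire_open {ι : Type*} [Countable ι] {O : Set M} (hO : IsOpen O) (hne : O.Nonempty)
    (F : ι → Set M) (hF : ∀ i, ∃ C, IsClosed C ∧ O ∩ F i = O ∩ C) (hcov : O ⊆ ⋃ i, F i) :
    ∃ i, ∃ O' ⊆ O, IsOpen O' ∧ O'.Nonempty ∧ O' ⊆ F i := by
  have : LocallyCompactSpace O := hO.locallyCompactSpace
  have : Nonempty O := hne.to_subtype
  obtain ⟨i, hi⟩ := nonempty_interior_of_iUnion_of_closed (X := O)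
    (f := fun i => (Subtype.val ⁻¹' F i : Set O)) (by
      intro i
      obtain ⟨C, hC, hCe⟩ := hF i
      have : (Subtype.val ⁻¹' F i : Set O) = Subtype.val ⁻¹' C := by
        ext x
        constructor
        · intro hx
          have : (x : M) ∈ O ∩ C := by rw [← hCe]; exact ⟨x.2, hx⟩
          exact this.2
        · intro hx
          have : (x : M) ∈ O ∩ F i := by rw [hCe]; exact ⟨x.2, hx⟩
          exact this.2
      rw [this]
      exact hC.preimage continuous_subtype_val) (by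
      ext x
      simp only [mem_iUnion, mem_preimage, mem_univ, iff_true]
      exact mem_iUnion.1 (hcov x.2))
  refine ⟨i, Subtype.val '' interior (Subtype.val ⁻¹' F i : Set O), ?_, ?_, ?_, ?_⟩
  · rintro _ ⟨x, -, rfl⟩; exact x.2
  · exact hO.isOpenMap_subtype_val _ isOpen_interior
  · exact hi.image _
  · rintro _ ⟨x, hx, rfl⟩
    have := interior_subset hx
    exact this

/-- number of preimages -/
noncomputable def nP (g : E → P) (x0 : E) (ε r : ℝ) (q : P) : ℕ :=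
  {x | x ∈ NU g x0 ε r ∧ g x = q}.ncard

/-- disjoint neighbourhoods of the points of a fibre; nearby points have preimages in all of them -/
theorem Nb.exists_nbhds (hN : Nb D g x0 ε r) (h : OD D g) {q : P} (hq : q ∈ ball (g x0) r) :
    ∃ U : E → Set E, (∀ x ∈ {x | x ∈ NU g x0 ε r ∧ g x = q}, x ∈ U x ∧ IsOpen (U x) ∧
      U x ⊆ NU g x0 ε r) ∧ ({x | x ∈ NU g x0 ε r ∧ g x = q}).PairwiseDisjoint U ∧
      ∃ V, IsOpen V ∧ q ∈ V ∧ V ⊆ ball (g x0) r ∧
        ∀ q' ∈ V, ∀ x ∈ {x | x ∈ NU g x0 ε r ∧ g x = q}, ∃ x' ∈ U x, g x' = q' := by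
  have hfin := hN.finite_fiber h hq
  obtain ⟨U, hU, hdis⟩ := hfin.t2_separation
  have hNo := hN.isOpen_NU h
  refine ⟨fun x => U x ∩ NU g x0 ε r, ?_, ?_, ?_⟩
  · intro x hx
    exact ⟨⟨(hU x).1, hx.1⟩, (hU x).2.inter hNo, inter_subset_right⟩
  · intro a ha b hb hab
    exact (hdis ha hb hab).mono inter_subset_left inter_subset_left
  · refine ⟨ball (g x0) r ∩ ⋂ x ∈ {x | x ∈ NU g x0 ε r ∧ g x = q}, g '' (U x ∩ NU g x0 ε r),
      ?_, ?_, inter_subset_left, ?_⟩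
    · refine isOpen_ball.inter (hfin.isOpen_biInter fun x hx => ?_)
      exact h.open_ _ ((hU x).2.inter hNo) (inter_subset_right.trans hN.NU_sub)
    · refine ⟨hq, ?_⟩
      rw [mem_iInter₂]
      intro x hx
      exact ⟨x, ⟨(hU x).1, hx.1⟩, hx.2⟩
    · rintro q' ⟨-, hq'⟩ x hx
      rw [mem_iInter₂] at hq'
      obtain ⟨x', hx', he⟩ := hq' x hx
      exact ⟨x', hx', he⟩

/-- lower semicontinuity of the number of preimages -/
theorem Nb.nP_lsc (hN : Nb D g x0 ε r) (h : OD D g) {q : P} (hq : q ∈ ball (g x0) r) :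
    ∃ V, IsOpen V ∧ q ∈ V ∧ V ⊆ ball (g x0) r ∧ ∀ q' ∈ V, nP g x0 ε r q ≤ nP g x0 ε r q' := by
  obtain ⟨U, hU, hdis, V, hV, hqV, hVsub, hex⟩ := hN.exists_nbhds h hq
  refine ⟨V, hV, hqV, hVsub, fun q' hq' => ?_⟩
  choose! φ hφ1 hφ2 using hex q' hq'
  refine Set.ncard_le_ncard_of_injOn φ ?_ ?_ (hN.finite_fiber h (hVsub hq'))
  · intro x hx
    exact ⟨(hU x hx).2.2 (hφ1 x hx), hφ2 x hx⟩
  · intro a ha b hb hab
    by_contra hne
    exact disjoint_left.1 (hdis ha hb hne) (hφ1 a ha) (hab ▸ hφ1 b hb)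

/-- A continuous map from an open set to the image of the branch set lifts to the branch set over
a smaller open set. -/
theorem Nb.lift_graph (hN : Nb D g x0 ε r) (h : OD D g) {O : Set M} (hO : IsOpen O)
    (hne : O.Nonempty) {q : M → P} (hq : ContinuousOn q O)
    (hqB : ∀ y ∈ O, q y ∈ g '' (Br D g ∩ NU g x0 ε r)) :
    ∃ O' ⊆ O, IsOpen O' ∧ O'.Nonempty ∧ ∃ k : M → E, ContinuousOn k O' ∧
      ∀ y ∈ O', k y ∈ Br D g ∧ g (k y) = q y := by
  have hqball : ∀ y ∈ O, q y ∈ ball (g x0) r := by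
    intro y hy
    obtain ⟨x, hx, hxe⟩ := hqB y hy
    rw [← hxe]; exact hx.2.2
  -- an open set on which the number of preimages is bounded, with the least bound
  have hex : ∃ n : ℕ, ∃ O' ⊆ O, IsOpen O' ∧ O'.Nonempty ∧ ∀ y ∈ O', nP g x0 ε r (q y) ≤ n := by
    obtain ⟨n, O', hO'sub, hO', hO'ne, hO'F⟩ := baire_open hO hne
      (fun n : ℕ => {y | y ∈ O ∧ nP g x0 ε r (q y) ≤ n}) (by
        intro n
        have hop : IsOpen {y | y ∈ O ∧ n < nP g x0 ε r (q y)} := by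
          rw [isOpen_iff_mem_nhds]
          rintro y ⟨hy, hn⟩
          obtain ⟨V, hV, hyV, hVsub, hle⟩ := hN.nP_lsc h (hqball y hy)
          have : O ∩ q ⁻¹' V ∈ 𝓝 y :=
            (hq.isOpen_inter_preimage hO hV).mem_nhds ⟨hy, hyV⟩
          filter_upwards [this] with y' hy'
          exact ⟨hy'.1, lt_of_lt_of_le hn (hle _ hy'.2)⟩
        refine ⟨{y | y ∈ O ∧ n < nP g x0 ε r (q y)}ᶜ, hop.isClosed_compl, ?_⟩
        ext y
        constructor
        · rintro ⟨h1, -, h2⟩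
          exact ⟨h1, fun h3 => absurd h3.2 (not_lt.2 h2)⟩
        · rintro ⟨h1, h2⟩
          refine ⟨h1, h1, ?_⟩
          by_contra hcon
          exact h2 ⟨h1, not_le.1 hcon⟩) (by
        intro y hy
        exact mem_iUnion.2 ⟨nP g x0 ε r (q y), hy, le_rfl⟩)
    exact ⟨n, O', hO'sub, hO', hO'ne, fun y hy => (hO'F hy).2⟩
  classical
  obtain ⟨O2, hO2sub, hO2, hO2ne, hO2n⟩ := Nat.find_spec hex
  have hmin := fun m (hm : m < Nat.find hex) => Nat.find_min hex hm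
  set n := Nat.find hex with hn
  -- a point of `O2` where the bound is attained
  have hatt : ∃ y1 ∈ O2, n ≤ nP g x0 ε r (q y1) := by
    by_contra hcon
    push Not at hcon
    obtain ⟨y, hy⟩ := hO2ne
    have h1 := hcon y hy
    have h2 : n - 1 < n := by omega
    exact hmin (n - 1) h2 ⟨O2, hO2sub, hO2, ⟨y, hy⟩, fun y hy => by
      have := hcon y hy
      omega⟩
  obtain ⟨y1, hy1, hy1n⟩ := hatt
  have hy1O := hO2sub hy1
  obtain ⟨U, hU, hdis, V, hV, hqV, hVsub, hexq⟩ := hN.exists_nbhds h (hqball y1 hy1O)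
  set Fi := {x | x ∈ NU g x0 ε r ∧ g x = q y1} with hFi
  have hFifin : Fi.Finite := hN.finite_fiber h (hqball y1 hy1O)
  set O3 := O2 ∩ (O ∩ q ⁻¹' V) with hO3
  have hO3o : IsOpen O3 := hO2.inter (hq.isOpen_inter_preimage hO hV)
  have hy1O3 : y1 ∈ O3 := ⟨hy1, hy1O, hqV⟩
  -- uniqueness of preimages
  have huniq : ∀ y ∈ O3, ∀ x' ∈ NU g x0 ε r, g x' = q y →
      ∃ x ∈ Fi, x' ∈ U x ∧ ∀ x'' ∈ U x, g x'' = q y → x'' = x' := by
    intro y hy x' hx' hgx'
    choose! φ hφ1 hφ2 using hexq (q y) hy.2.2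
    have hfy := hN.finite_fiber h (hqball y hy.2.1)
    have hmaps : MapsTo φ Fi {x | x ∈ NU g x0 ε r ∧ g x = q y} := fun x hx =>
      ⟨(hU x hx).2.2 (hφ1 x hx), hφ2 x hx⟩
    have hinj : InjOn φ Fi := by
      intro a ha b hb hab
      by_contra hne
      exact disjoint_left.1 (hdis ha hb hne) (hφ1 a ha) (hab ▸ hφ1 b hb)
    have hcard : ({x | x ∈ NU g x0 ε r ∧ g x = q y}).ncard ≤ Fi.ncard := (hO2n y hy.1).trans hy1n
    have hsurj : φ '' Fi = {x | x ∈ NU g x0 ε r ∧ g x = q y} := by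
      refine Set.eq_of_subset_of_ncard_le (image_subset_iff.2 hmaps) ?_ hfy
      rw [hinj.ncard_image]
      exact hcard
    have h1 : x' ∈ φ '' Fi := by rw [hsurj]; exact ⟨hx', hgx'⟩
    obtain ⟨a, ha, rfl⟩ := h1
    refine ⟨a, ha, hφ1 a ha, ?_⟩
    intro x'' hx'' hgx''
    have h2 : x'' ∈ φ '' Fi := by rw [hsurj]; exact ⟨(hU a ha).2.2 hx'', hgx''⟩
    obtain ⟨b, hb, rfl⟩ := h2
    have hab : a = b := by
      by_contra hne
      exact disjoint_left.1 (hdis ha hb hne) hx'' (hφ1 b hb)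
    rw [hab]
  -- the branches
  have hk : ∀ x ∈ Fi, ∀ y ∈ O3, ∃ x' ∈ U x, g x' = q y := fun x hx y hy => hexq (q y) hy.2.2 x hx
  choose! k hk1 hk2 using hk
  have hkuniq : ∀ x ∈ Fi, ∀ y ∈ O3, ∀ x'' ∈ U x, g x'' = q y → x'' = k x y := by
    intro x hx y hy x'' hx'' hgx''
    obtain ⟨a, ha, ha1, ha2⟩ := huniq y hy (k x y) ((hU x hx).2.2 (hk1 x hx y hy)) (hk2 x hx y hy)
    have hax : a = x := by
      by_contra hne
      exact disjoint_left.1 (hdis ha hx hne) ha1 (hk1 x hx y hy)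
    subst hax
    exact ha2 x'' hx'' hgx''
  have hkc : ∀ x ∈ Fi, ContinuousOn (k x) O3 := by
    intro x hx y hy
    rw [ContinuousWithinAt, Filter.tendsto_def]
    intro A hA
    obtain ⟨A', hA'A, hA', hyA'⟩ := _root_.mem_nhds_iff.1 hA
    have hop : IsOpen (g '' (A' ∩ U x)) := h.open_ _ (hA'.inter (hU x hx).2.1)
      (inter_subset_right.trans ((hU x hx).2.2.trans hN.NU_sub))
    have hmem : q y ∈ g '' (A' ∩ U x) := ⟨k x y, ⟨hyA', hk1 x hx y hy⟩, hk2 x hx y hy⟩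
    have h1 : O ∩ q ⁻¹' (g '' (A' ∩ U x)) ∈ 𝓝 y :=
      (hq.isOpen_inter_preimage hO hop).mem_nhds ⟨hy.2.1, hmem⟩
    filter_upwards [inter_mem_nhdsWithin O3 h1] with y' hy'
    obtain ⟨x'', ⟨hx1, hx2⟩, hx3⟩ := hy'.2.2
    have := hkuniq x hx y' hy'.1 x'' hx2 hx3
    apply hA'A
    show k x y' ∈ A'
    rw [← this]; exact hx1
  -- one of the branches lies in the branch set
  have : Countable Fi := hFifin.countable.to_subtype
  obtain ⟨⟨x, hx⟩, O4, hO4sub, hO4, hO4ne, hO4B⟩ := baire_open hO3o ⟨y1, hy1O3⟩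
    (fun x : Fi => {y | y ∈ O3 ∧ k x y ∈ Br D g}) (by
      rintro ⟨x, hx⟩
      have hop : IsOpen (O3 ∩ k x ⁻¹' (D \ Br D g)) :=
        (hkc x hx).isOpen_inter_preimage hO3o (isOpen_diff_Br h.isOpen)
      refine ⟨(O3 ∩ k x ⁻¹' (D \ Br D g))ᶜ, hop.isClosed_compl, ?_⟩
      ext y
      constructor
      · rintro ⟨h1, -, h2⟩
        exact ⟨h1, fun h3 => h3.2.2 h2⟩
      · rintro ⟨h1, h2⟩
        refine ⟨h1, h1, ?_⟩
        by_contra hcon
        exact h2 ⟨h1, hN.NU_sub ((hU x hx).2.2 (hk1 x hx y h1)), hcon⟩) (by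
      intro y hy
      obtain ⟨x', ⟨hx'B, hx'N⟩, hx'q⟩ := hqB y hy.2.1
      obtain ⟨x, hx, hxU, -⟩ := huniq y hy x' hx'N hx'q
      refine mem_iUnion.2 ⟨⟨x, hx⟩, hy, ?_⟩
      have := hkuniq x hx y hy x' hxU hx'q
      show k x y ∈ Br D g
      rw [← this]; exact hx'B)
  exact ⟨O4, fun y hy => (hO4sub hy).2.1, hO4, hO4ne, k x, (hkc x hx).mono hO4sub,
    fun y hy => ⟨(hO4B hy).2, hk2 x hx y (hO4sub hy)⟩⟩

end Run7.h379
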