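import Pool.Agent.N491.HP.Jan

/-!
# Totally disconnected closed sets do not separate convex open sets
-/

set_option autoImplicit false
set_option linter.unusedSectionVars false

open Set Topology

namespace Run7.h379

variable {F : Type*} [NormedAddCommGroup F] [NormedSpace ℝ F]

/-- a vector which is not a multiple of a given one -/
theorem exists_transversal (hr : 1 < Module.rank ℝ F) (x : F) : ∃ u : F, ∀ a b : ℝ,
    a • u = b • x → a = 0 := by
  by_cases hx : x = 0
  · have : Nontrivial F := (rank_pos_iff_nontrivial (R := ℝ)).1 (lt_trans zero_lt_one hr)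
    obtain ⟨u, hu⟩ := exists_ne (0 : F)
    refine ⟨u, fun a b h => ?_⟩
    rw [hx, smul_zero, smul_eq_zero] at h
    exact h.resolve_right hu
  · obtain ⟨u, hu⟩ := exists_linearIndependent_pair_of_one_lt_rank hr hx
    refine ⟨u, fun a b h => ?_⟩
    rw [LinearIndependent.pair_iff] at hu
    have := hu (-b) a (by rw [h, neg_smul]; simp)
    exact this.2

theorem seg_lemma {x z v u d : F} (hu : ∀ a b : ℝ, a • u = b • d → a = 0) {ε s : ℝ}
    (hε : ε ≠ 0) (hz : z = x + s • d) (hv : v = z + ε • u) (hs : s ≠ 0)
    (hd : d ≠ 0) : z ∉ segment ℝ x v := by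
  rintro ⟨a, b, ha, hb, hab, h⟩
  -- z = a x + b v
  have h1 : (b * ε) • u = (a * s) • d := by
    have h2 : a • x + b • (z + ε • u) = z := by rw [← hv]; exact h
    have h3 : a • x + b • z + (b * ε) • u = z := by
      rw [smul_add, ← mul_smul, ← add_assoc] at h2
      exact h2
    have h4 : (b * ε) • u = z - b • z - a • x := by
      calc (b * ε) • u = (a • x + b • z + (b * ε) • u) - b • z - a • x := by abel
        _ = z - b • z - a • x := by rw [h3]
    have h5 : z - b • z = a • z := by
      have : a = 1 - b := by linarith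
      rw [this, sub_smul, one_smul]
    rw [h4, h5, hz, smul_add, mul_smul]
    abel
  have h6 := hu _ _ h1
  have h7 : b = 0 := by
    rcases mul_eq_zero.1 h6 with h | h
    · exact h
    · exact absurd h hε
  have h8 : (a * s) • d = 0 := by rw [← h1, h6, zero_smul]
  rcases smul_eq_zero.1 h8 with h9 | h9
  · rcases mul_eq_zero.1 h9 with h | h
    · linarith
    · exact hs h
  · exact hd h9

/-- two points of a convex open set can be joined in it without meeting a third point -/
theorem joined_avoid (hr : 1 < Module.rank ℝ F) {C : Set F} (hC : IsOpen C) (hconv : Convex ℝ C)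
    {x y z : F} (hx : x ∈ C) (hy : y ∈ C) (hxz : x ≠ z) (hyz : y ≠ z) :
    ∃ D ⊆ C, IsPreconnected D ∧ x ∈ D ∧ y ∈ D ∧ z ∉ D := by
  by_cases hz : z ∈ segment ℝ x y
  · have hxy : x ≠ y := by
      rintro rfl
      rw [segment_same] at hz
      exact hxz hz.symm
    obtain ⟨u, hu⟩ := exists_transversal hr (y - x)
    have hzC : z ∈ C := hconv.segment_subset hx hy hz
    obtain ⟨δ, hδ, hball⟩ := Metric.isOpen_iff.1 hC z hzC
    have hun : u ≠ 0 := by
      rintro rfl
      have := hu 1 0 (by simp)
      norm_num at this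
    have hupos : 0 < ‖u‖ := norm_pos_iff.2 hun
    set ε := δ / (2 * ‖u‖) with hε
    have hεpos : 0 < ε := by positivity
    set v := z + ε • u with hv
    have hvC : v ∈ C := by
      apply hball
      rw [Metric.mem_ball, dist_eq_norm, hv, add_sub_cancel_left, norm_smul, Real.norm_eq_abs,
        abs_of_pos hεpos, hε]
      have : δ / (2 * ‖u‖) * ‖u‖ = δ / 2 := by field_simp
      rw [this]; linarith
    obtain ⟨a, b, ha, hb, hab, hzeq⟩ := hz
    have hzx : z = x + b • (y - x) := by
      have : a = 1 - b := by linarith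
      rw [← hzeq, this, sub_smul, one_smul, smul_sub]; abel
    have hzy : z = y + (-a) • (y - x) := by
      have : b = 1 - a := by linarith
      rw [← hzeq, this, sub_smul, one_smul, neg_smul, smul_sub]; abel
    have hb0 : b ≠ 0 := by
      rintro rfl
      rw [zero_smul, add_zero] at hzx
      exact hxz hzx.symm
    have ha0 : a ≠ 0 := by
      rintro rfl
      rw [neg_zero, zero_smul, add_zero] at hzy
      exact hyz hzy.symm
    have hd : y - x ≠ 0 := sub_ne_zero.2 hxy.symm
    refine ⟨segment ℝ x v ∪ segment ℝ y v, ?_, ?_, ?_, ?_, ?_⟩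
    · exact union_subset (hconv.segment_subset hx hvC) (hconv.segment_subset hy hvC)
    · exact IsPreconnected.union v (right_mem_segment ℝ x v) (right_mem_segment ℝ y v)
        (convex_segment x v).isPreconnected (convex_segment y v).isPreconnected
    · exact Or.inl (left_mem_segment ℝ x v)
    · exact Or.inr (left_mem_segment ℝ y v)
    · rintro (h | h)
      · exact seg_lemma hu hεpos.ne' hzx hv hb0 hd h
      · exact seg_lemma hu hεpos.ne' hzy hv (neg_ne_zero.2 ha0) hd h
  · exact ⟨segment ℝ x y, hconv.segment_subset hx hy, (convex_segment x y).isPreconnected,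
      left_mem_segment ℝ x y, right_mem_segment ℝ x y, hz⟩

/-- a totally disconnected relatively closed set does not separate a convex open set -/
theorem isPathConnected_inter (hr : 1 < Module.rank ℝ F) {C : Set F} (hC : IsOpen C)
    (hconv : Convex ℝ C) (hne : C.Nonempty) {G : Set F} (hG : IsOpen G)
    (htd : IsTotallyDisconnected (C \ G)) : IsPathConnected (C ∩ G) := by
  have : Nontrivial F := (rank_pos_iff_nontrivial (R := ℝ)).1 (lt_trans zero_lt_one hr)
  have hopen : IsOpen (C ∩ G) := hC.inter hG
  rw [← hopen.isConnected_iff_isPathConnected]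
  constructor
  · -- nonempty
    by_contra hcon
    rw [not_nonempty_iff_eq_empty] at hcon
    have h1 : C \ G = C := by
      ext w
      refine ⟨fun h => h.1, fun h => ⟨h, fun hw => ?_⟩⟩
      have : w ∈ C ∩ G := ⟨h, hw⟩
      rw [hcon] at this; exact this
    rw [h1] at htd
    have h2 : C.Subsingleton := htd C subset_rfl hconv.isPreconnected
    obtain ⟨c, hc⟩ := hne
    obtain ⟨δ, hδ, hball⟩ := Metric.isOpen_iff.1 hC c hc
    obtain ⟨u, hu⟩ := exists_ne (0 : F)
    have hupos : 0 < ‖u‖ := norm_pos_iff.2 hu
    have h3 : c + (δ / (2 * ‖u‖)) • u ∈ C := by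
      apply hball
      rw [Metric.mem_ball, dist_eq_norm, add_sub_cancel_left, norm_smul, Real.norm_eq_abs,
        abs_of_pos (by positivity)]
      have : δ / (2 * ‖u‖) * ‖u‖ = δ / 2 := by field_simp
      rw [this]; linarith
    have h4 := h2 h3 hc
    have h5 : (δ / (2 * ‖u‖)) • u = 0 := by
      have : c + (δ / (2 * ‖u‖)) • u = c + 0 := by rw [h4, add_zero]
      exact add_left_cancel this
    rcases smul_eq_zero.1 h5 with h | h
    · have : 0 < δ / (2 * ‖u‖) := by positivity
      linarith
    · exact hu h
  · refine isPreconnected_of_forall_pair ?_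
    intro x hx y hy
    -- work in the subtype
    have : ContractibleSpace C := hconv.contractibleSpace hne
    have : LocallyPathConnectedSpace C := hC.locallyPathConnectedSpace
    let A : Set C := {w | (w : F) ∉ G}
    have hA : IsClosed A := (hG.preimage continuous_subtype_val).isClosed_compl
    by_cases hs : Pool.Agent.N491.HP.Sep A ⟨x, hx.1⟩ ⟨y, hy.1⟩
    · exfalso
      obtain ⟨K, hKA, hKc, hKp, hKs⟩ := Pool.Agent.N491.HP.janis hA
        (x := ⟨x, hx.1⟩) (y := ⟨y, hy.1⟩) (fun h => h hx.2) (fun h => h hy.2) hs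
      have hKsub : K.Subsingleton := by
        intro a ha b hb
        have h1 := htd (Subtype.val '' K) (by
          rintro _ ⟨w, hw, rfl⟩
          exact ⟨w.2, hKA hw⟩) (hKp.image _ continuous_subtype_val.continuousOn)
        exact Subtype.ext (h1 ⟨a, ha, rfl⟩ ⟨b, hb, rfl⟩)
      rcases hKsub.eq_empty_or_singleton with h0 | ⟨z, hz⟩
      · obtain ⟨w, -, hw⟩ := hKs univ isPreconnected_univ (mem_univ _) (mem_univ _)
        rw [h0] at hw
        exact hw
      · have hzA : z ∈ A := hKA (by rw [hz]; rfl)
        have hxz : x ≠ z := fun h => hzA (h ▸ hx.2)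
        have hyz : y ≠ z := fun h => hzA (h ▸ hy.2)
        obtain ⟨D, hDC, hDp, hxD, hyD, hzD⟩ := joined_avoid hr hC hconv hx.1 hy.1 hxz hyz
        have hD' : IsPreconnected (Subtype.val ⁻¹' D : Set C) := by
          rw [← Topology.IsInducing.subtypeVal.isPreconnected_image]
          rw [Subtype.image_preimage_coe, inter_eq_right.2 hDC]
          exact hDp
        obtain ⟨w, hw1, hw2⟩ := hKs (Subtype.val ⁻¹' D) hD' hxD hyD
        rw [hz] at hw2
        rw [mem_singleton_iff] at hw2
        subst hw2
        exact hzD hw1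
    · unfold Pool.Agent.N491.HP.Sep at hs
      push Not at hs
      obtain ⟨D, hDp, hxD, hyD, hDA⟩ := hs
      refine ⟨Subtype.val '' D, ?_, ⟨_, hxD, rfl⟩, ⟨_, hyD, rfl⟩,
        hDp.image _ continuous_subtype_val.continuousOn⟩
      rintro _ ⟨w, hw, rfl⟩
      refine ⟨w.2, ?_⟩
      by_contra hwG
      have : w ∈ D ∩ A := ⟨hw, hwG⟩
      rw [hDA] at this
      exact this

end Run7.h379
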