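import Pool.Agent.Run7.h379.Sl
import Pool.Agent.Run7.h379.Plane

/-!
# Local triviality over all points of a rectangle implies triviality
-/

set_option autoImplicit false
set_option linter.unusedSectionVars false

open Set Topology unitInterval

namespace Run7.h379

/-- a one-dimensional induction principle -/
theorem interval_induction (P : ℝ → ℝ → Prop)
    (mono : ∀ a b a' b', P a b → a ≤ a' → b' ≤ b → P a' b')
    (glue : ∀ a b c d, a ≤ c → c < b → b ≤ d → P a b → P c d → P a d) {α β : ℝ} (hαβ : α ≤ β)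
    (loc : ∀ u ∈ Icc α β, ∃ δ > 0, P (u - δ) (u + δ)) : ∃ δ > 0, P (α - δ) (β + δ) := by
  obtain ⟨δ0, hδ0, h0⟩ := loc α ⟨le_rfl, hαβ⟩
  let S : Set ℝ := {t | t ∈ Icc α β ∧ ∃ η > 0, P (α - δ0) (t + η)}
  have hαS : α ∈ S := ⟨⟨le_rfl, hαβ⟩, δ0, hδ0, h0⟩
  have hbdd : BddAbove S := ⟨β, fun t ht => ht.1.2⟩
  set T := sSup S with hT
  have hT1 : α ≤ T := le_csSup hbdd hαS
  have hT2 : T ≤ β := csSup_le ⟨α, hαS⟩ fun t ht => ht.1.2
  obtain ⟨δ, hδ, h⟩ := loc T ⟨hT1, hT2⟩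
  obtain ⟨s, hs, hsT⟩ := exists_lt_of_lt_csSup ⟨α, hαS⟩ (show T - δ < sSup S by rw [← hT]; linarith)
  obtain ⟨⟨hs1, hs2⟩, η, hη, hP⟩ := hs
  have key : P (α - δ0) (T + δ) := by
    rcases le_total (T + δ) (s + η) with h1 | h1
    · exact mono _ _ _ _ hP le_rfl h1
    · refine glue (α - δ0) (s + η) (max (α - δ0) (T - δ)) (T + δ) (le_max_left _ _) ?_ h1 hP
        (mono _ _ _ _ h (le_max_right _ _) le_rfl)
      apply max_lt <;> linarith
  have hTβ : T = β := by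
    by_contra hne
    have hlt : T < β := lt_of_le_of_ne hT2 hne
    have h1 : min β (T + δ / 2) ∈ S := by
      refine ⟨⟨le_min hαβ (by linarith), min_le_left _ _⟩, δ / 2, by linarith, ?_⟩
      refine mono _ _ _ _ key le_rfl ?_
      have := min_le_right β (T + δ / 2)
      linarith
    have h2 : min β (T + δ / 2) ≤ T := le_csSup hbdd h1
    have h3 : T < min β (T + δ / 2) := lt_min hlt (by linarith)
    linarith
  rw [hTβ] at key
  exact ⟨min δ0 δ, lt_min hδ0 hδ, mono _ _ _ _ key (by linarith [min_le_left δ0 δ])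
    (by linarith [min_le_right δ0 δ])⟩

/-- open rectangle -/
def Rect (a b c d : ℝ) : Set (ℝ × ℝ) := Ioo a b ×ˢ Ioo c d

theorem mem_Rect {a b c d : ℝ} {w : ℝ × ℝ} :
    w ∈ Rect a b c d ↔ (a < w.1 ∧ w.1 < b) ∧ (c < w.2 ∧ w.2 < d) := Iff.rfl

theorem isOpen_Rect (a b c d : ℝ) : IsOpen (Rect a b c d) := isOpen_Ioo.prod isOpen_Ioo

theorem convex_Rect (a b c d : ℝ) : Convex ℝ (Rect a b c d) := (convex_Ioo a b).prod (convex_Ioo c d)

theorem Rect_mono {a b c d a' b' c' d' : ℝ} (h1 : a' ≤ a) (h2 : b ≤ b') (h3 : c' ≤ c)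
    (h4 : d ≤ d') : Rect a b c d ⊆ Rect a' b' c' d' := by
  rintro w ⟨⟨h5, h6⟩, h7, h8⟩
  exact ⟨⟨by linarith, by linarith⟩, by linarith, by linarith⟩

theorem Rect_nonempty {a b c d : ℝ} (h1 : a < b) (h2 : c < d) : (Rect a b c d).Nonempty :=
  ⟨((a + b) / 2, (c + d) / 2), ⟨by simp; linarith, by simp; linarith⟩, by simp; linarith,
    by simp; linarith⟩

theorem ball_eq_Rect (w : ℝ × ℝ) (ε : ℝ) :
    Metric.ball w ε = Rect (w.1 - ε) (w.1 + ε) (w.2 - ε) (w.2 + ε) := by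
  rw [← ball_prod_same, Real.ball_eq_Ioo, Real.ball_eq_Ioo]
  rfl

theorem one_lt_rank_plane : 1 < Module.rank ℝ (ℝ × ℝ) := by
  rw [rank_prod']
  simp
  norm_num

variable {X M : Type*} [TopologicalSpace X] [NormedAddCommGroup M] [NormedSpace ℝ M]
  {p : X → M × (ℝ × ℝ)} {Z : Set (M × (ℝ × ℝ))}

theorem Sl_union {y : M} {R1 R2 : Set (ℝ × ℝ)} : Sl Z y (R1 ∪ R2) = Sl Z y R1 ∪ Sl Z y R2 := by
  ext q
  constructor
  · rintro ⟨h1, h2 | h2, h3⟩
    · exact Or.inl ⟨h1, h2, h3⟩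
    · exact Or.inr ⟨h1, h2, h3⟩
  · rintro (⟨h1, h2, h3⟩ | ⟨h1, h2, h3⟩)
    · exact ⟨h1, Or.inl h2, h3⟩
    · exact ⟨h1, Or.inr h2, h3⟩

theorem Sl_inter {y : M} {R1 R2 : Set (ℝ × ℝ)} : Sl Z y (R1 ∩ R2) = Sl Z y R1 ∩ Sl Z y R2 := by
  ext q
  constructor
  · rintro ⟨h1, h2, h3⟩
    exact ⟨⟨h1, h2.1, h3⟩, h1, h2.2, h3⟩
  · rintro ⟨⟨h1, h2, h3⟩, -, h4, -⟩
    exact ⟨h1, ⟨h2, h4⟩, h3⟩

theorem isPathConnected_Sl (hZ : IsOpen Z) {y : M} {W : Set (ℝ × ℝ)}
    (htd : IsTotallyDisconnected (W \ {w | (y, w) ∈ Z})) {R : Set (ℝ × ℝ)} (hR : IsOpen R)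
    (hRc : Convex ℝ R) (hRW : R ⊆ W) (hne : R.Nonempty) : IsPathConnected (Sl Z y R) := by
  have hG : IsOpen {w | (y, w) ∈ Z} := hZ.preimage (by fun_prop)
  have h1 := isPathConnected_inter one_lt_rank_plane hR hRc hne hG (fun t ht => htd t
    (ht.trans (sdiff_subset_sdiff_left hRW)))
  have h2 : Sl Z y R = (fun w => (y, w)) '' (R ∩ {w | (y, w) ∈ Z}) := by
    ext q
    constructor
    · rintro ⟨rfl, h2, h3⟩
      exact ⟨q.2, ⟨h2, h3⟩, rfl⟩
    · rintro ⟨w, ⟨h2, h3⟩, rfl⟩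
      exact ⟨rfl, h2, h3⟩
  rw [h2]
  exact h1.image (by fun_prop)

theorem glueSl (hp : IsCoveringMapOn p Z) (hpc : Continuous p) (hZ : IsOpen Z) {y : M}
    {W : Set (ℝ × ℝ)} (htd : IsTotallyDisconnected (W \ {w | (y, w) ∈ Z})) {R1 R2 : Set (ℝ × ℝ)}
    (hR1 : IsOpen R1) (hR2 : IsOpen R2) (hR1c : Convex ℝ R1) (hR2c : Convex ℝ R2) (hR1W : R1 ⊆ W)
    (hR2W : R2 ⊆ W) (hne : (R1 ∩ R2).Nonempty) (h1 : Tr p (Sl Z y R1)) (h2 : Tr p (Sl Z y R2)) :
    Tr p (Sl Z y (R1 ∪ R2)) := by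
  rw [Sl_union]
  refine Tr.glue hp Sl_sub Sl_sub (A' := Prod.snd ⁻¹' R1) (B' := Prod.snd ⁻¹' R2)
    (hR1.preimage continuous_snd) (hR2.preimage continuous_snd) ?_ ?_ hpc
    (isPathConnected_Sl hZ htd hR1 hR1c hR1W (hne.mono inter_subset_left))
    (isPathConnected_Sl hZ htd hR2 hR2c hR2W (hne.mono inter_subset_right)) ?_ h1 h2
  · ext q
    constructor
    · rintro ⟨h | h, h'⟩
      · exact h
      · exact ⟨h.1, h', h.2.2⟩
    · intro h
      exact ⟨Or.inl h, h.2.1⟩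
  · ext q
    constructor
    · rintro ⟨h | h, h'⟩
      · exact ⟨h.1, h', h.2.2⟩
      · exact h
    · intro h
      exact ⟨Or.inr h, h.2.1⟩
  · rw [← Sl_inter]
    exact isPathConnected_Sl hZ htd (hR1.inter hR2) (hR1c.inter hR2c)
      (inter_subset_left.trans hR1W) hne

theorem Rect_union_x {a b c d e f : ℝ} (h1 : a ≤ c) (h2 : c < b) (h3 : b ≤ d) :
    Rect a b e f ∪ Rect c d e f = Rect a d e f := by
  ext w
  simp only [mem_union, mem_Rect]
  constructor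
  · rintro (⟨⟨h4, h5⟩, h6⟩ | ⟨⟨h4, h5⟩, h6⟩)
    · exact ⟨⟨h4, by linarith⟩, h6⟩
    · exact ⟨⟨by linarith, h5⟩, h6⟩
  · rintro ⟨⟨h4, h5⟩, h6⟩
    rcases lt_or_ge w.1 b with h | h
    · exact Or.inl ⟨⟨h4, h⟩, h6⟩
    · exact Or.inr ⟨⟨by linarith, h5⟩, h6⟩

theorem Rect_union_y {a b c d e f : ℝ} (h1 : a ≤ c) (h2 : c < b) (h3 : b ≤ d) :
    Rect e f a b ∪ Rect e f c d = Rect e f a d := by
  ext w
  simp only [mem_union, mem_Rect]
  constructor
  · rintro (⟨h6, h4, h5⟩ | ⟨h6, h4, h5⟩)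
    · exact ⟨h6, h4, by linarith⟩
    · exact ⟨h6, by linarith, h5⟩
  · rintro ⟨h6, h4, h5⟩
    rcases lt_or_ge w.2 b with h | h
    · exact Or.inl ⟨h6, h4, h⟩
    · exact Or.inr ⟨h6, by linarith, h5⟩

theorem Tr.of_empty {A : Set (M × (ℝ × ℝ))} (h : A = ∅) : Tr p A := by
  intro γ hγ
  have := hγ 0
  rw [h] at this
  exact this.elim

/-- local triviality at all points of a closed rectangle implies triviality -/
theorem tr_of_local (hp : IsCoveringMapOn p Z) (hpc : Continuous p) (hZ : IsOpen Z) {y : M}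
    {A0 B0 C0 D0 : ℝ} (htd : IsTotallyDisconnected (Rect A0 B0 C0 D0 \ {w | (y, w) ∈ Z}))
    {a b c d : ℝ} (hab : a < b) (hcd : c < d) (ha : A0 < a) (hb : b < B0) (hc : C0 < c) (hd : d < D0)
    (loc : ∀ w ∈ Icc a b ×ˢ Icc c d, ∃ ε > 0, Tr p (Sl Z y (Metric.ball w ε))) :
    Tr p (Sl Z y (Rect a b c d)) := by
  have claim : ∀ u ∈ Icc a b, ∃ η > 0, ∃ δ > 0, A0 ≤ u - δ ∧ u + δ ≤ B0 ∧ C0 ≤ c - η ∧
      d + η ≤ D0 ∧ Tr p (Sl Z y (Rect (u - δ) (u + δ) (c - η) (d + η))) := by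
    intro u hu
    refine interval_induction (fun v1 v2 => ∃ δ > 0, A0 ≤ u - δ ∧ u + δ ≤ B0 ∧ C0 ≤ v1 ∧
      v2 ≤ D0 ∧ Tr p (Sl Z y (Rect (u - δ) (u + δ) v1 v2))) ?_ ?_ hcd.le ?_
    · rintro v1 v2 v1' v2' ⟨δ, hδ, h1, h2, h3, h4, h5⟩ h6 h7
      exact ⟨δ, hδ, h1, h2, by linarith, by linarith, h5.mono (Sl_mono
        (Rect_mono le_rfl le_rfl h6 h7))⟩
    · rintro v1 v2 v3 v4 h13 h32 h24 ⟨δ, hδ, h1, h2, h3, h4, h5⟩ ⟨δ', hδ', h1', h2', h3', h4', h5'⟩
      refine ⟨min δ δ', lt_min hδ hδ', by linarith [min_le_left δ δ'],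
        by linarith [min_le_left δ δ'], h3, h4', ?_⟩
      rw [← Rect_union_y h13 h32 h24]
      have hm := lt_min hδ hδ'
      refine glueSl hp hpc hZ htd (isOpen_Rect _ _ _ _) (isOpen_Rect _ _ _ _) (convex_Rect _ _ _ _)
        (convex_Rect _ _ _ _) ?_ ?_ ?_ ?_ ?_
      · exact Rect_mono (by linarith [min_le_left δ δ']) (by linarith [min_le_left δ δ'])
          (by linarith) (by linarith)
      · exact Rect_mono (by linarith [min_le_left δ δ']) (by linarith [min_le_left δ δ'])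
          (by linarith) (by linarith)
      · refine (Rect_nonempty (a := u - min δ δ') (b := u + min δ δ') (c := v3) (d := v2)
          (by linarith) h32).mono ?_
        exact subset_inter (Rect_mono le_rfl le_rfl h13 le_rfl) (Rect_mono le_rfl le_rfl le_rfl h24)
      · exact h5.mono (Sl_mono (Rect_mono (by linarith [min_le_left δ δ'])
          (by linarith [min_le_left δ δ']) le_rfl le_rfl))
      · exact h5'.mono (Sl_mono (Rect_mono (by linarith [min_le_right δ δ'])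
          (by linarith [min_le_right δ δ']) le_rfl le_rfl))
    · intro v hv
      obtain ⟨ε, hε, h⟩ := loc (u, v) ⟨hu, hv⟩
      rw [ball_eq_Rect] at h
      have h1 : 0 < min (min (u - A0) (B0 - u)) (min (v - C0) (D0 - v)) := by
        refine lt_min (lt_min ?_ ?_) (lt_min ?_ ?_) <;> linarith [hu.1, hu.2, hv.1, hv.2]
      set m := min (min (u - A0) (B0 - u)) (min (v - C0) (D0 - v)) with hm
      have h2 : m ≤ u - A0 := le_trans (min_le_left _ _) (min_le_left _ _)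
      have h3 : m ≤ B0 - u := le_trans (min_le_left _ _) (min_le_right _ _)
      have h4 : m ≤ v - C0 := le_trans (min_le_right _ _) (min_le_left _ _)
      have h5 : m ≤ D0 - v := le_trans (min_le_right _ _) (min_le_right _ _)
      have h6 : min ε m ≤ ε := min_le_left _ _
      have h7 : min ε m ≤ m := min_le_right _ _
      refine ⟨min ε m, lt_min hε h1, min ε m, lt_min hε h1, by linarith, by linarith, by linarith,
        by linarith, ?_⟩
      refine h.mono (Sl_mono (Rect_mono ?_ ?_ ?_ ?_)) <;> simp only <;> linarith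
  obtain ⟨δ, hδ, -, -, h⟩ := interval_induction (fun u1 u2 => A0 ≤ u1 ∧ u2 ≤ B0 ∧
      Tr p (Sl Z y (Rect u1 u2 c d))) (by
        rintro u1 u2 u1' u2' ⟨h1, h2, h5⟩ h6 h7
        exact ⟨by linarith, by linarith, h5.mono (Sl_mono (Rect_mono h6 h7 le_rfl le_rfl))⟩) (by
        rintro u1 u2 u3 u4 h13 h32 h24 ⟨h1, h2, h5⟩ ⟨h1', h2', h5'⟩
        refine ⟨h1, h2', ?_⟩
        rw [← Rect_union_x h13 h32 h24]
        refine glueSl hp hpc hZ htd (isOpen_Rect _ _ _ _) (isOpen_Rect _ _ _ _)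
          (convex_Rect _ _ _ _) (convex_Rect _ _ _ _) ?_ ?_ ?_ h5 h5'
        · exact Rect_mono (by linarith) (by linarith) (by linarith) (by linarith)
        · exact Rect_mono (by linarith) (by linarith) (by linarith) (by linarith)
        · refine (Rect_nonempty (a := u3) (b := u2) (c := c) (d := d) h32 hcd).mono ?_
          exact subset_inter (Rect_mono h13 le_rfl le_rfl le_rfl)
            (Rect_mono le_rfl h24 le_rfl le_rfl)) hab.le (by
        intro u hu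
        obtain ⟨η, hη, δ, hδ, h1, h2, -, -, h5⟩ := claim u hu
        exact ⟨δ, hδ, h1, h2, h5.mono (Sl_mono (Rect_mono le_rfl le_rfl (by linarith)
          (by linarith)))⟩)
  exact h.mono (Sl_mono (Rect_mono (by linarith) (by linarith) le_rfl le_rfl))

/-- essential points of a slice -/
def Ess (p : X → M × (ℝ × ℝ)) (Z : Set (M × (ℝ × ℝ))) (y : M) (w : ℝ × ℝ) : Prop :=
  ∀ ε > 0, ¬ Tr p (Sl Z y (Metric.ball w ε))

/-- nontriviality over a rectangle yields an essential point -/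
theorem exists_ess (hp : IsCoveringMapOn p Z) (hpc : Continuous p) (hZ : IsOpen Z) {y : M}
    {A0 B0 C0 D0 : ℝ} (htd : IsTotallyDisconnected (Rect A0 B0 C0 D0 \ {w | (y, w) ∈ Z}))
    {a b c d : ℝ} (hsub : Rect a b c d ⊆ Rect A0 B0 C0 D0) (h : ¬ Tr p (Sl Z y (Rect a b c d))) :
    ∃ w ∈ Rect a b c d, Ess p Z y w := by
  have h' : ¬ ∀ γ : C(I, X), (∀ t, p (γ t) ∈ Sl Z y (Rect a b c d)) → p (γ 0) = p (γ 1) →
    γ 0 = γ 1 := h
  push Not at h'
  obtain ⟨γ, hγ, h01, hne⟩ := h'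
  obtain ⟨t1, -, ht1⟩ := isCompact_univ.exists_isMinOn univ_nonempty
    (f := fun t : I => (p (γ t)).2.1) (by fun_prop)
  obtain ⟨t2, -, ht2⟩ := isCompact_univ.exists_isMaxOn univ_nonempty
    (f := fun t : I => (p (γ t)).2.1) (by fun_prop)
  obtain ⟨t3, -, ht3⟩ := isCompact_univ.exists_isMinOn univ_nonempty
    (f := fun t : I => (p (γ t)).2.2) (by fun_prop)
  obtain ⟨t4, -, ht4⟩ := isCompact_univ.exists_isMaxOn univ_nonempty
    (f := fun t : I => (p (γ t)).2.2) (by fun_prop)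
  have e1 := (hγ t1).2.1.1.1
  have e2 := (hγ t2).2.1.1.2
  have e3 := (hγ t3).2.1.2.1
  have e4 := (hγ t4).2.1.2.2
  have f1 : ∀ t, (p (γ t1)).2.1 ≤ (p (γ t)).2.1 := fun t => ht1 (mem_univ t)
  have f2 : ∀ t, (p (γ t)).2.1 ≤ (p (γ t2)).2.1 := fun t => ht2 (mem_univ t)
  have f3 : ∀ t, (p (γ t3)).2.2 ≤ (p (γ t)).2.2 := fun t => ht3 (mem_univ t)
  have f4 : ∀ t, (p (γ t)).2.2 ≤ (p (γ t4)).2.2 := fun t => ht4 (mem_univ t)
  set a' := (a + (p (γ t1)).2.1) / 2 with ha'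
  set b' := ((p (γ t2)).2.1 + b) / 2 with hb'
  set c' := (c + (p (γ t3)).2.2) / 2 with hc'
  set d' := ((p (γ t4)).2.2 + d) / 2 with hd'
  have g1 := f1 t2
  have g2 := f3 t4
  have hbad : ¬ Tr p (Sl Z y (Rect a' b' c' d')) := by
    intro hT
    apply hne
    refine hT γ (fun t => ⟨(hγ t).1, ?_, (hγ t).2.2⟩) h01
    refine ⟨⟨?_, ?_⟩, ?_, ?_⟩
    · show a' < _
      linarith [f1 t]
    · show _ < b'
      linarith [f2 t]
    · show c' < _
      linarith [f3 t]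
    · show _ < d'
      linarith [f4 t]
  by_contra hcon
  push Not at hcon
  apply hbad
  have hA : A0 ≤ a ∧ b ≤ B0 ∧ C0 ≤ c ∧ d ≤ D0 := by
    have hab : a < b := by linarith [f1 t2]
    have hcd : c < d := by linarith
    have hm : ∀ s t : ℝ, a < s → s < b → c < t → t < d → (s, t) ∈ Rect A0 B0 C0 D0 :=
      fun s t h1 h2 h3 h4 => hsub ⟨⟨h1, h2⟩, h3, h4⟩
    refine ⟨?_, ?_, ?_, ?_⟩
    · by_contra hlt
      push Not at hlt
      have := (hm (min ((a + A0) / 2) ((a + b) / 2)) ((c + d) / 2) (by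
        apply lt_min <;> linarith) (lt_of_le_of_lt (min_le_right _ _) (by linarith))
        (by linarith) (by linarith)).1.1
      have h2 := min_le_left ((a + A0) / 2) ((a + b) / 2)
      simp only at this
      linarith
    · by_contra hlt
      push Not at hlt
      have := (hm (max ((b + B0) / 2) ((a + b) / 2)) ((c + d) / 2)
        (lt_of_lt_of_le (by linarith) (le_max_right _ _)) (by apply max_lt <;> linarith)
        (by linarith) (by linarith)).1.2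
      have h2 := le_max_left ((b + B0) / 2) ((a + b) / 2)
      simp only at this
      linarith
    · by_contra hlt
      push Not at hlt
      have := (hm ((a + b) / 2) (min ((c + C0) / 2) ((c + d) / 2)) (by linarith) (by linarith) (by
        apply lt_min <;> linarith) (lt_of_le_of_lt (min_le_right _ _) (by linarith))).2.1
      have h2 := min_le_left ((c + C0) / 2) ((c + d) / 2)
      simp only at this
      linarith
    · by_contra hlt
      push Not at hlt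
      have := (hm ((a + b) / 2) (max ((d + D0) / 2) ((c + d) / 2)) (by linarith) (by linarith)
        (lt_of_lt_of_le (by linarith) (le_max_right _ _)) (by apply max_lt <;> linarith)).2.2
      have h2 := le_max_left ((d + D0) / 2) ((c + d) / 2)
      simp only at this
      linarith
  obtain ⟨hA1, hA2, hA3, hA4⟩ := hA
  refine tr_of_local hp hpc hZ htd (by linarith) (by linarith) (by linarith) (by linarith)
    (by linarith) (by linarith) ?_
  rintro w ⟨⟨h1, h2⟩, h3, h4⟩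
  have hw : w ∈ Rect a b c d := ⟨⟨by linarith, by linarith⟩, by linarith, by linarith⟩
  have := hcon w hw
  unfold Ess at this
  push Not at this
  exact this

theorem Ess.not_mem (hp : IsCoveringMapOn p Z) (hpc : Continuous p) (hZ : IsOpen Z) {y : M}
    {w : ℝ × ℝ} (h : Ess p Z y w) : (y, w) ∉ Z := by
  intro hmem
  obtain ⟨ε, hε, hball⟩ := Metric.isOpen_iff.1 hZ _ hmem
  apply h ε hε
  have hconv : Convex ℝ {q : M × (ℝ × ℝ) | q.1 = y ∧ q.2 ∈ Metric.ball w ε} := by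
    rintro ⟨a, b⟩ ⟨h1, h2⟩ ⟨a', b'⟩ ⟨h3, h4⟩ s t hs ht hst
    simp only at h1 h2 h3 h4
    subst h1
    refine ⟨?_, convex_ball w ε h2 h4 hs ht hst⟩
    show s • a + t • a' = a
    rw [h3, ← add_smul, hst, one_smul]
  have hsub : {q : M × (ℝ × ℝ) | q.1 = y ∧ q.2 ∈ Metric.ball w ε} ⊆ Z := by
    rintro ⟨a, b⟩ ⟨h1, h2⟩
    simp only at h1 h2
    subst h1
    apply hball
    rw [Metric.mem_ball, Prod.dist_eq]
    exact max_lt (by simpa using hε) h2
  exact (Tr.of_convex hp hsub hconv hpc).mono fun q hq => ⟨hq.1, hq.2.1⟩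

theorem Ess.not_tr {y : M} {w : ℝ × ℝ} (h : Ess p Z y w) {R : Set (ℝ × ℝ)} (hR : IsOpen R)
    (hw : w ∈ R) : ¬ Tr p (Sl Z y R) := by
  obtain ⟨ε, hε, hball⟩ := Metric.isOpen_iff.1 hR _ hw
  exact fun hT => h ε hε (hT.mono (Sl_mono hball))

theorem isClosed_ess (y : M) : IsClosed {w | Ess p Z y w} := by
  rw [← isOpen_compl_iff, Metric.isOpen_iff]
  intro w hw
  have hw' : ¬ ∀ ε > 0, ¬ Tr p (Sl Z y (Metric.ball w ε)) := hw
  push Not at hw'
  obtain ⟨ε, hε, h⟩ := hw'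
  refine ⟨ε, hε, fun w' hw' hE => hE.not_tr Metric.isOpen_ball hw' h⟩

end Run7.h379
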