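import Pool.Agent.Run7.h379.Inj

/-!
# The image of the branch set contains a graph over an open set
-/

set_option autoImplicit false
set_option linter.unusedSectionVars false

open Set Topology Metric unitInterval

namespace Run7.h379

section path

variable {M : Type*} [NormedAddCommGroup M] [NormedSpace ℝ M] {Z : Set (M × (ℝ × ℝ))}

theorem isPathConnected_box (hZ : IsOpen Z) {O1 : Set M} (hO1 : Convex ℝ O1) (hne : O1.Nonempty)
    {W R : Set (ℝ × ℝ)} (htd : ∀ y ∈ O1, IsTotallyDisconnected (W \ {w | (y, w) ∈ Z}))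
    (hR : IsOpen R) (hRc : Convex ℝ R) (hRW : R ⊆ W) {w1 : ℝ × ℝ} (hw1 : w1 ∈ R)
    (hbase : ∀ y ∈ O1, (y, w1) ∈ Z) : IsPathConnected ((O1 ×ˢ R) ∩ Z) := by
  obtain ⟨y0, hy0⟩ := hne
  refine ⟨(y0, w1), ⟨⟨hy0, hw1⟩, hbase _ hy0⟩, ?_⟩
  rintro ⟨y, w⟩ ⟨⟨hy, hw⟩, hmem⟩
  have h1 : JoinedIn ((O1 ×ˢ R) ∩ Z) (y, w1) (y, w) := by
    have h2 := (isPathConnected_Sl hZ (htd y hy) hR hRc hRW ⟨w1, hw1⟩).joinedIn (y, w1)
      ⟨rfl, hw1, hbase y hy⟩ (y, w) ⟨rfl, hw, hmem⟩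
    refine h2.mono ?_
    rintro ⟨a, b⟩ ⟨h3, h4, h5⟩
    simp only at h3 h4
    subst h3
    exact ⟨⟨hy, h4⟩, h5⟩
  have h2 : JoinedIn ((O1 ×ˢ R) ∩ Z) (y0, w1) (y, w1) := by
    have h3 : IsPathConnected ((fun y => (y, w1)) '' O1) :=
      (hO1.isPathConnected ⟨y0, hy0⟩).image (by fun_prop)
    refine (h3.joinedIn (y0, w1) ⟨y0, hy0, rfl⟩ (y, w1) ⟨y, hy, rfl⟩).mono ?_
    rintro _ ⟨a, ha, rfl⟩
    exact ⟨⟨ha, hw1⟩, hbase a ha⟩
  exact h2.trans h1

end path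

variable {E M : Type*} [NormedAddCommGroup E] [InnerProductSpace ℝ E] [FiniteDimensional ℝ E]
  [NormedAddCommGroup M] [NormedSpace ℝ M] [FiniteDimensional ℝ M]
  {D : Set E} {g : E → M × (ℝ × ℝ)}

theorem exists_graph (h : OD D g) (hdim : Module.finrank ℝ E = Module.finrank ℝ M + 2)
    {x0 : E} (hx0 : x0 ∈ Br D g) {ε r : ℝ} (hN : Nb D g x0 ε r)
    (htd : ∀ y : M, IsTotallyDisconnected {w | (y, w) ∈ g '' (Br D g ∩ NU g x0 ε r)})
    (hcount : ∀ O : Set M, IsOpen O → O.Nonempty →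
      ¬ IsMeagre {y | y ∈ O ∧ {w | (y, w) ∈ g '' (Br D g ∩ NU g x0 ε r)}.Countable}) :
    ∃ O : Set M, IsOpen O ∧ O.Nonempty ∧ ∃ z : M → ℝ × ℝ, ContinuousOn z O ∧
      ∀ y ∈ O, (y, z y) ∈ g '' (Br D g ∩ NU g x0 ε r) := by
  set Z := ZZ D g x0 ε r with hZdef
  have hZ : IsOpen Z := hN.isOpen_ZZ h
  set y0 := (g x0).1 with hy0
  set w0 := (g x0).2 with hw0
  have hrpos := hN.rpos
  have hball : ball (g x0) r = ball y0 r ×ˢ ball w0 r := (ball_prod_same y0 w0 r).symm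
  have hW : ball w0 r = Rect (w0.1 - r) (w0.1 + r) (w0.2 - r) (w0.2 + r) := ball_eq_Rect w0 r
  have hsub : ∀ y ∈ ball y0 r, Rect (w0.1 - r) (w0.1 + r) (w0.2 - r) (w0.2 + r) \
      {w | (y, w) ∈ Z} ⊆ {w | (y, w) ∈ g '' (Br D g ∩ NU g x0 ε r)} := by
    intro y hy w hw
    have h1 : (y, w) ∈ ball (g x0) r := by
      rw [hball]
      exact ⟨hy, by rw [hW]; exact hw.1⟩
    by_contra hcon
    exact hw.2 ⟨h1, hcon⟩
  have htd' : ∀ y ∈ ball y0 r, IsTotallyDisconnected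
      (Rect (w0.1 - r) (w0.1 + r) (w0.2 - r) (w0.2 + r) \ {w | (y, w) ∈ Z}) :=
    fun y hy t ht => htd y t (ht.trans (hsub y hy))
  rcases core (hN.isCoveringMapOn h) (hN.cont_pN h) hZ (O := ball y0 r) isOpen_ball htd' (by
      intro O' hO'sub hO' hne hm
      refine hcount O' hO' hne (hm.mono ?_)
      rintro y ⟨hy, hc⟩
      exact ⟨hy, hc.mono (hsub y (hO'sub hy))⟩) with ⟨O', hO'sub, hO', hne, z, hz, hzm⟩ | htr
  · refine ⟨O', hO', hne, z, hz, fun y hy => ?_⟩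
    exact hsub y (hO'sub hy) ⟨(hzm y hy).1, (hzm y hy).2⟩
  · exfalso
    -- smaller boxes with a base section
    have hbox : ∀ q ∈ ball (g x0) r, ∀ U ∈ 𝓝 q, ∃ O1 : Set M, ∃ R : Set (ℝ × ℝ), IsOpen O1 ∧
        Convex ℝ O1 ∧ q.1 ∈ O1 ∧ O1 ⊆ ball y0 r ∧ IsOpen R ∧ Convex ℝ R ∧ q.2 ∈ R ∧
        R ⊆ ball w0 r ∧ O1 ×ˢ R ⊆ U ∧ ∃ w1 ∈ R, ∀ y ∈ O1, (y, w1) ∈ Z := by
      intro q hq U hU
      obtain ⟨ρ, hρ, hρsub⟩ := Metric.mem_nhds_iff.1 (Filter.inter_mem hU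
        (isOpen_ball.mem_nhds hq))
      have e1 : ball q ρ = ball q.1 ρ ×ˢ ball q.2 ρ := (ball_prod_same q.1 q.2 ρ).symm
      rw [e1] at hρsub
      have hsub3 : ball q.1 ρ ⊆ ball y0 r := by
        intro y hy
        have : (y, q.2) ∈ ball (g x0) r :=
          (hρsub (show (y, q.2) ∈ ball q.1 ρ ×ˢ ball q.2 ρ from ⟨hy, mem_ball_self hρ⟩)).2
        rw [hball] at this
        exact this.1
      have hsub4 : ball q.2 ρ ⊆ ball w0 r := by
        intro w hw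
        have : (q.1, w) ∈ ball (g x0) r :=
          (hρsub (show (q.1, w) ∈ ball q.1 ρ ×ˢ ball q.2 ρ from ⟨mem_ball_self hρ, hw⟩)).2
        rw [hball] at this
        exact this.2
      have hpc := isPathConnected_Sl hZ (htd' q.1 (hsub3 (mem_ball_self hρ)))
        (isOpen_ball (x := q.2) (ε := ρ)) (convex_ball _ _) (by rw [← hW]; exact hsub4)
        ⟨q.2, mem_ball_self hρ⟩
      obtain ⟨⟨y', w1⟩, h1, h2, h3⟩ := hpc.nonempty
      simp only at h1 h2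
      subst h1
      obtain ⟨δ, hδ, hδsub⟩ := Metric.isOpen_iff.1 hZ _ h3
      refine ⟨ball q.1 (min δ ρ), ball q.2 ρ, isOpen_ball, convex_ball _ _,
        mem_ball_self (lt_min hδ hρ), (ball_subset_ball (min_le_right _ _)).trans hsub3,
        isOpen_ball, convex_ball _ _, mem_ball_self hρ, hsub4, ?_, w1, h2, ?_⟩
      · rintro ⟨a, b⟩ ⟨ha, hb⟩
        exact (hρsub (show (a, b) ∈ ball q.1 ρ ×ˢ ball q.2 ρ from
          ⟨ball_subset_ball (min_le_right _ _) ha, hb⟩)).1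
      · intro y hy
        apply hδsub
        rw [Metric.mem_ball, Prod.dist_eq]
        apply max_lt
        · exact lt_of_lt_of_le hy (min_le_left _ _)
        · simpa using hδ
    -- the first box: its second factor is the whole of `ball w0 r`
    have hpc0 := isPathConnected_Sl hZ (htd' y0 (mem_ball_self hrpos))
        (isOpen_ball (x := w0) (ε := r)) (convex_ball _ _) (by rw [← hW])
        ⟨w0, mem_ball_self hrpos⟩
    obtain ⟨⟨y', w1⟩, h1, h2, h3⟩ := hpc0.nonempty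
    simp only at h1 h2
    subst h1
    obtain ⟨δ, hδ, hδsub⟩ := Metric.isOpen_iff.1 hZ _ h3
    set O1 := ball y0 (min δ r) with hO1
    have hO1r : O1 ⊆ ball y0 r := ball_subset_ball (min_le_right _ _)
    have hbase : ∀ y ∈ O1, (y, w1) ∈ Z := by
      intro y hy
      apply hδsub
      rw [Metric.mem_ball, Prod.dist_eq]
      apply max_lt
      · exact lt_of_lt_of_le hy (min_le_left _ _)
      · simpa using hδ
    have hT := Tr.of_slices (hN.isCoveringMapOn h) hZ (hN.cont_pN h) (O := O1)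
      (convex_ball _ _) (W := ball w0 r) isOpen_ball h2 hbase (by
        intro y hy w hw hm
        exact (isPathConnected_Sl hZ (htd' y (hO1r hy)) isOpen_ball (convex_ball _ _)
          (by rw [← hW]) ⟨w0, mem_ball_self hrpos⟩).joinedIn _ ⟨rfl, hw, hm⟩ _
          ⟨rfl, h2, hbase y hy⟩) (by
        intro y hy
        rw [hW]
        exact htr y (hO1r hy))
    refine hN.inj_of_tr h ?_ (V1 := O1 ×ˢ ball w0 r) (isOpen_ball.prod isOpen_ball) ?_ ?_ ?_ ?_ ?_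
      hx0
    · rw [hdim, Module.finrank_prod, Module.finrank_prod]
      simp
    · rw [hball]
      exact prod_mono hO1r subset_rfl
    · exact ⟨mem_ball_self (lt_min hδ hrpos), mem_ball_self hrpos⟩
    · exact isPathConnected_box hZ (convex_ball _ _) ⟨y0, mem_ball_self (lt_min hδ hrpos)⟩
        (fun y hy => htd' y (hO1r hy)) isOpen_ball (convex_ball _ _) (by rw [← hW]) h2 hbase
    · rintro q hq U hU
      have hq' : q ∈ ball (g x0) r := by
        rw [hball]; exact ⟨hO1r hq.1, hq.2⟩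
      obtain ⟨O2, R, hO2, hO2c, hq1, hO2r, hR, hRc, hq2, hRr, hsubU, w2, hw2, hbase2⟩ :=
        hbox q hq' U hU
      refine ⟨O2 ×ˢ R, (hO2.prod hR).mem_nhds ⟨hq1, hq2⟩, hsubU, ?_⟩
      exact isPathConnected_box hZ hO2c ⟨q.1, hq1⟩ (fun y hy => htd' y (hO2r hy)) hR hRc
        (by rw [← hW]; exact hRr) hw2 hbase2
    · refine hT.mono ?_
      rintro q ⟨⟨h4, h5⟩, h6⟩
      exact ⟨h4, h5, h6⟩

end Run7.h379
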