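import Pool.Agent.Run7.h379.Lift
import Pool.Agent.Run7.h379.Dim

/-!
# If the branch set is totally disconnected then so is its image, locally
-/

set_option autoImplicit false
set_option linter.unusedSectionVars false

open Set Topology Metric

namespace Run7.h379

theorem CD.td {X : Type*} [TopologicalSpace X] [T1Space X] {B : Set X} (h : CD B 1) :
    IsTotallyDisconnected B := by
  intro t ht htc a ha b hb
  by_contra hab
  obtain ⟨V, hV, hVU, hBV, hord⟩ := h 2 ![{b}ᶜ, {a}ᶜ] (by
    intro i
    fin_cases i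
    · exact isOpen_compl_singleton
    · exact isOpen_compl_singleton) (by
    intro x _
    rw [mem_iUnion]
    by_cases hx : x = b
    · exact ⟨1, by
        show x ∈ ({a}ᶜ : Set X)
        rw [hx]
        exact fun h => hab h.symm⟩
    · exact ⟨0, hx⟩)
  have hcov : t ⊆ V 0 ∪ V 1 := by
    intro x hx
    obtain ⟨i, hi⟩ := mem_iUnion.1 (hBV (ht hx))
    fin_cases i
    · exact Or.inl hi
    · exact Or.inr hi
  have hdis : t ∩ (V 0 ∩ V 1) = ∅ := by
    rw [eq_empty_iff_forall_notMem]
    rintro x ⟨hx, h0, h1⟩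
    have h2 := hord x (ht hx)
    have h3 : ({0, 1} : Set (Fin 2)) ⊆ {i : Fin 2 | x ∈ V i} := by
      rintro i (rfl | rfl)
      · exact h0
      · exact h1
    have h4 := Set.ncard_le_ncard h3 (Set.toFinite _)
    rw [Set.ncard_pair (by decide)] at h4
    omega
  have haV : a ∉ V 1 := fun h => hVU 1 h rfl
  have hbV : b ∉ V 0 := fun h => hVU 0 h rfl
  rcases isPreconnected_iff_subset_of_disjoint.1 htc _ _ (hV 0) (hV 1) hcov hdis with h1 | h1
  · exact hbV (h1 hb)
  · exact haV (h1 ha)

variable {E P : Type*} [NormedAddCommGroup E] [NormedSpace ℝ E] [FiniteDimensional ℝ E]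
  [NormedAddCommGroup P] [NormedSpace ℝ P] [FiniteDimensional ℝ P]
  {D : Set E} {g : E → P} {x0 : E} {ε r : ℝ}

/-- a connected locally compact Hausdorff space with a nonempty open totally disconnected subset
has at most one point -/
theorem subsingleton_of_open_td {T : Type*} [TopologicalSpace T] [T2Space T]
    [LocallyCompactSpace T] [PreconnectedSpace T] {O : Set T} (hO : IsOpen O) (hne : O.Nonempty)
    (htd : IsTotallyDisconnected O) : (univ : Set T).Subsingleton := by
  obtain ⟨p, hp⟩ := hne
  obtain ⟨K, hK, hpK, hKO⟩ := exists_compact_subset hO hp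
  have : CompactSpace K := isCompact_iff_compactSpace.1 hK
  have htdK : TotallyDisconnectedSpace K :=
    totallyDisconnectedSpace_subtype_iff.2 (fun t ht htc => htd t (ht.trans hKO) htc)
  obtain ⟨V, hV, hpV, hVU⟩ := compact_exists_isClopen_in_isOpen (X := K)
    (x := ⟨p, interior_subset hpK⟩) (U := Subtype.val ⁻¹' interior K)
    (isOpen_interior.preimage continuous_subtype_val) hpK
  have hcl : IsClosed (Subtype.val '' V : Set T) :=
    (hV.isClosed.isCompact.image continuous_subtype_val).isClosed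
  have hop : IsOpen (Subtype.val '' V : Set T) := by
    obtain ⟨W, hW, hWV⟩ := isOpen_induced_iff.1 hV.isOpen
    have : (Subtype.val '' V : Set T) = W ∩ interior K := by
      ext x
      constructor
      · rintro ⟨y, hy, rfl⟩
        refine ⟨?_, hVU hy⟩
        rw [← hWV] at hy
        exact hy
      · rintro ⟨h1, h2⟩
        refine ⟨⟨x, interior_subset h2⟩, ?_, rfl⟩
        rw [← hWV]
        exact h1
    rw [this]
    exact hW.inter isOpen_interior
  have huniv : (Subtype.val '' V : Set T) = univ :=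
    IsClopen.eq_univ ⟨hcl, hop⟩ ⟨p, ⟨_, hpV, rfl⟩⟩
  refine htd univ ?_ isPreconnected_univ
  rw [← huniv]
  rintro _ ⟨y, -, rfl⟩
  exact hKO y.2

theorem Nb.td_image (hN : Nb D g x0 ε r) (h : OD D g) (htd : IsTotallyDisconnected (Br D g)) :
    IsTotallyDisconnected (g '' (Br D g ∩ NU g x0 ε r)) := by
  intro t ht htc
  rcases t.eq_empty_or_nonempty with rfl | hne
  · exact subsingleton_empty
  have htball : t ⊆ ball (g x0) r := by
    intro q hq
    obtain ⟨x, hx, hxe⟩ := ht hq
    rw [← hxe]; exact hx.2.2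
  set X : Set P := closure t ∩ ball (g x0) r with hX
  have htX : t ⊆ X := fun q hq => ⟨subset_closure hq, htball hq⟩
  have hXc : IsPreconnected X := htc.subset_closure htX inter_subset_left
  have hXE : X ⊆ g '' (Br D g ∩ NU g x0 ε r) := by
    rintro q ⟨hq1, hq2⟩
    by_contra hcon
    have hqZ : q ∈ ZZ D g x0 ε r := ⟨hq2, hcon⟩
    obtain ⟨q', hq', hq't⟩ := _root_.mem_closure_iff.1 hq1 _ (hN.isOpen_ZZ h) hqZ
    exact hq'.2 (ht hq't)
  have hlc : IsLocallyClosed X := isClosed_closure.isLocallyClosed.inter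
    isOpen_ball.isLocallyClosed
  have : LocallyCompactSpace X := hlc.locallyCompactSpace
  have : PreconnectedSpace X := isPreconnected_iff_preconnectedSpace.1 hXc
  obtain ⟨p, hp⟩ := hne
  obtain ⟨O', -, hO', hO'ne, k, hk, hkB⟩ := hN.lift_graph h (M := X) (O := univ) isOpen_univ
    ⟨⟨p, htX hp⟩, mem_univ _⟩ (q := Subtype.val) continuous_subtype_val.continuousOn
    (fun y _ => hXE y.2)
  have htdO : IsTotallyDisconnected O' := by
    intro s hs hsc a ha b hb
    have h1 : IsPreconnected (k '' s) := hsc.image _ (hk.mono hs)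
    have h2 := htd _ (by
      rintro _ ⟨y, hy, rfl⟩
      exact (hkB y (hs hy)).1) h1
    have h3 : k a = k b := h2 ⟨a, ha, rfl⟩ ⟨b, hb, rfl⟩
    have h4 := (hkB a (hs ha)).2
    have h5 := (hkB b (hs hb)).2
    apply Subtype.ext
    rw [← h4, ← h5, h3]
  have h6 := subsingleton_of_open_td hO' hO'ne htdO
  intro a ha b hb
  exact congrArg Subtype.val (h6 (mem_univ (⟨a, htX ha⟩ : X)) (mem_univ ⟨b, htX hb⟩))

end Run7.h379
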