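import Pool.Agent.Run7.h379.Local
import Pool.Agent.Run7.h379.TD

/-!
# Open discrete maps whose branch values have countable sections along foliations by planes
-/

set_option autoImplicit false
set_option linter.unusedSectionVars false

open Set Topology Metric

namespace Run7.h379

variable {n m : ℕ}

theorem OD.comp_chart {E P P' : Type*} [NormedAddCommGroup E] [NormedSpace ℝ E]
    [FiniteDimensional ℝ E] [NormedAddCommGroup P] [NormedSpace ℝ P] [FiniteDimensional ℝ P]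
    [NormedAddCommGroup P'] [NormedSpace ℝ P'] [FiniteDimensional ℝ P'] {D : Set E} {f : E → P}
    (h : OD D f) (Φ : OpenPartialHomeomorph P P') (hs : MapsTo f D Φ.source) :
    OD D (fun x => Φ (f x)) where
  isOpen := h.isOpen
  cont := Φ.continuousOn.comp h.cont hs
  open_ := fun U hU hUD => by
    have h1 := Φ.isOpen_image_of_subset_source (h.open_ U hU hUD) (by
      rintro _ ⟨x, hx, rfl⟩
      exact hs (hUD hx))
    rw [image_image] at h1
    exact h1
  disc := fun x hx => by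
    obtain ⟨ε, hε, h1⟩ := h.disc x hx
    exact ⟨ε, hε, fun y hy hyx he => h1 y hy hyx (Φ.injOn (hs hy) (hs hx) he)⟩

theorem Br_comp_chart {E P P' : Type*} [NormedAddCommGroup E] [NormedSpace ℝ E]
    [FiniteDimensional ℝ E] [NormedAddCommGroup P] [NormedSpace ℝ P] [FiniteDimensional ℝ P]
    [NormedAddCommGroup P'] [NormedSpace ℝ P'] [FiniteDimensional ℝ P'] {D : Set E} {f : E → P}
    (Φ : OpenPartialHomeomorph P P') (hs : MapsTo f D Φ.source) :
    Br D (fun x => Φ (f x)) = Br D f := by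
  ext x
  constructor
  · rintro ⟨h1, h2⟩
    refine ⟨h1, fun U hU hx hUD hinj => h2 U hU hx hUD fun a ha b hb hab =>
      hinj ha hb (Φ.injOn (hs (hUD ha)) (hs (hUD hb)) hab)⟩
  · rintro ⟨h1, h2⟩
    refine ⟨h1, fun U hU hx hUD hinj => h2 U hU hx hUD fun a ha b hb hab =>
      hinj ha hb (congrArg Φ hab)⟩

/-- the main theorem -/
theorem main (hn : n = m + 2) {D : Set (EuclideanSpace ℝ (Fin n))}
    {f : EuclideanSpace ℝ (Fin n) → EuclideanSpace ℝ (Fin n)} (h : OD D f)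
    (hB : (Br D f).Nonempty) (A : ℕ → Set (EuclideanSpace ℝ (Fin n)))
    (hA : ∀ i, IsClosed (A i)) (hcov : f '' Br D f ⊆ ⋃ i, A i)
    (φ : ℕ → OpenPartialHomeomorph (EuclideanSpace ℝ (Fin n))
      (EuclideanSpace ℝ (Fin m) × (ℝ × ℝ))) (hsrc : ∀ i, A i ⊆ (φ i).source)
    (htd : IsTotallyDisconnected (Br D f) ∨ ∀ K ⊆ Br D f, IsCompact K → ∀ i y,
      IsTotallyDisconnected {p | p ∈ f '' K ∩ A i ∧ (φ i p).1 = y})
    (hcount : ∀ K ⊆ Br D f, IsCompact K → ∀ i, ∀ O : Set (EuclideanSpace ℝ (Fin m)), IsOpen O →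
      O.Nonempty → ¬ IsMeagre {y | y ∈ O ∧ {p | p ∈ f '' K ∩ A i ∧ (φ i p).1 = y}.Countable}) :
    ∃ (O : Set (EuclideanSpace ℝ (Fin m)))
      (k : EuclideanSpace ℝ (Fin m) → EuclideanSpace ℝ (Fin n)),
      IsOpen O ∧ O.Nonempty ∧ ContinuousOn k O ∧ MapsTo k O (Br D f) ∧
      InjOn (fun y => f (k y)) O := by
  have hBD : Br D f ⊆ D := fun x hx => hx.1
  -- Baire on the branch set
  have hlc : IsLocallyClosed (Br D f) := by
    have : Br D f = D ∩ (D \ Br D f)ᶜ := by
      ext x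
      constructor
      · intro hx; exact ⟨hBD hx, fun h => h.2 hx⟩
      · rintro ⟨h1, h2⟩
        by_contra h3
        exact h2 ⟨h1, h3⟩
    rw [this]
    exact h.isOpen.isLocallyClosed.inter (isOpen_diff_Br h.isOpen).isClosed_compl.isLocallyClosed
  have : LocallyCompactSpace (Br D f) := hlc.locallyCompactSpace
  have : Nonempty (Br D f) := hB.to_subtype
  obtain ⟨i, x1, hx1⟩ := nonempty_interior_of_iUnion_of_closed (X := Br D f)
    (f := fun i => {x : Br D f | f x ∈ A i}) (by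
      intro i
      exact (hA i).preimage (h.cont.comp_continuous continuous_subtype_val fun x => hBD x.2)) (by
      ext x
      simp only [mem_iUnion, mem_univ, iff_true]
      obtain ⟨i, hi⟩ := mem_iUnion.1 (hcov ⟨x, x.2, rfl⟩)
      exact ⟨i, hi⟩)
  obtain ⟨V, hV, hVe⟩ := isOpen_induced_iff.1
    (isOpen_interior (s := {x : Br D f | f x ∈ A i}))
  have hx1V : (x1 : EuclideanSpace ℝ (Fin n)) ∈ V := by
    have : x1 ∈ (Subtype.val ⁻¹' V : Set (Br D f)) := by rw [hVe]; exact hx1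
    exact this
  have hVA : ∀ x ∈ Br D f, x ∈ V → f x ∈ A i := by
    intro x hx hxV
    have : (⟨x, hx⟩ : Br D f) ∈ (Subtype.val ⁻¹' V : Set (Br D f)) := hxV
    rw [hVe] at this
    have h3 := interior_subset this
    exact h3
  set D' := D ∩ f ⁻¹' (φ i).source ∩ V with hD'
  have hD'o : IsOpen D' := (h.cont.isOpen_inter_preimage h.isOpen (φ i).open_source).inter hV
  have hD'D : D' ⊆ D := fun x hx => hx.1.1
  have h' := h.mono hD'o hD'D
  have hs : MapsTo f D' (φ i).source := fun x hx => hx.1.2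
  have hBsub : Br D' f ⊆ Br D f := Br_anti hD'o hD'D
  have hdim : Module.finrank ℝ (EuclideanSpace ℝ (Fin n)) =
      Module.finrank ℝ (EuclideanSpace ℝ (Fin m)) + 2 := by
    simp [hn]
  set Φ := φ i with hΦdef
  set g : EuclideanSpace ℝ (Fin n) → EuclideanSpace ℝ (Fin m) × (ℝ × ℝ) := fun x => Φ (f x) with hg
  have hgOD : OD D' g := h'.comp_chart Φ hs
  have hBg : Br D' g = Br D' f := Br_comp_chart Φ hs
  have hx1B : (x1 : EuclideanSpace ℝ (Fin n)) ∈ Br D' g := by
    rw [hBg]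
    exact Br_mono hD'D ⟨x1.2, ⟨hBD x1.2, hsrc i (hVA _ x1.2 hx1V)⟩, hx1V⟩
  obtain ⟨ε, r, -, hN⟩ := hgOD.exists_Nb hx1B.1 one_pos
  -- a compact part of the branch set
  set K := closedBall (x1 : EuclideanSpace ℝ (Fin n)) ε ∩ Br D f with hK
  have hKsub : K ⊆ Br D f := inter_subset_right
  have hKc : IsCompact K := by
    have : K = closedBall (x1 : EuclideanSpace ℝ (Fin n)) ε ∩ (D \ Br D f)ᶜ := by
      ext x
      constructor
      · rintro ⟨h1, h2⟩; exact ⟨h1, fun h => h.2 h2⟩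
      · rintro ⟨h1, h2⟩
        refine ⟨h1, ?_⟩
        by_contra h3
        exact h2 ⟨hD'D (hN.sub h1), h3⟩
    rw [this]
    exact (isCompact_closedBall _ _).inter_right (isOpen_diff_Br h.isOpen).isClosed_compl
  have hmem : ∀ y w, (y, w) ∈ g '' (Br D' g ∩ NU g x1 ε r) →
      Φ.symm (y, w) ∈ {p | p ∈ f '' K ∩ A i ∧ (φ i p).1 = y} ∧ (y, w) ∈ Φ.target := by
    rintro y w ⟨x, ⟨hx, hxN⟩, hxe⟩
    rw [hBg] at hx
    have hfx : f x ∈ Φ.source := hs hx.1
    have h1 : Φ.symm (y, w) = f x := by rw [← hxe]; exact Φ.left_inv hfx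
    have h2 : (Φ (f x)).1 = y := by
      have : Φ (f x) = (y, w) := hxe
      rw [this]
    refine ⟨⟨⟨⟨x, ⟨ball_subset_closedBall hxN.1, hBsub hx⟩, h1.symm⟩, ?_⟩, ?_⟩, ?_⟩
    · rw [h1]; exact hVA x (hBsub hx) hx.1.2
    · rw [h1, h2]
    · rw [← hxe]; exact Φ.map_source hfx
  have hinjw : ∀ y, InjOn (fun w : ℝ × ℝ => Φ.symm (y, w)) {w | (y, w) ∈ Φ.target} := by
    intro y a ha b hb hab
    have := Φ.symm.injOn ha hb hab
    exact (Prod.mk.inj this).2
  have hsecsub : ∀ y, {w | (y, w) ∈ g '' (Br D' g ∩ NU g x1 ε r)} ⊆ {w | (y, w) ∈ Φ.target} :=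
    fun y w hw => (hmem y w hw).2
  have htd' : ∀ y, IsTotallyDisconnected {w | (y, w) ∈ g '' (Br D' g ∩ NU g x1 ε r)} := by
    rcases htd with htd | htd
    · have h1 := hN.td_image hgOD (by
        rw [hBg]
        exact fun t ht htc => htd t (ht.trans hBsub) htc)
      intro y t ht htc
      have h2 := h1 ((fun w : ℝ × ℝ => (y, w)) '' t) (by
        rintro _ ⟨w, hw, rfl⟩
        exact ht hw) (htc.image _ (by fun_prop))
      intro a ha b hb
      exact (Prod.mk.inj (h2 ⟨a, ha, rfl⟩ ⟨b, hb, rfl⟩)).2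
    · intro y t ht htc
      have h1 : IsPreconnected ((fun w : ℝ × ℝ => Φ.symm (y, w)) '' t) := by
        refine htc.image _ ?_
        refine Φ.symm.continuousOn.comp (by fun_prop) ?_
        intro w hw
        exact hsecsub y (ht hw)
      have h2 := htd K hKsub hKc i y _ (by
        rintro _ ⟨w, hw, rfl⟩
        exact (hmem y w (ht hw)).1) h1
      intro a ha b hb
      exact hinjw y (hsecsub y (ht ha)) (hsecsub y (ht hb)) (h2 ⟨a, ha, rfl⟩ ⟨b, hb, rfl⟩)
  have hcount' : ∀ O : Set (EuclideanSpace ℝ (Fin m)), IsOpen O → O.Nonempty →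
      ¬ IsMeagre {y | y ∈ O ∧ {w | (y, w) ∈ g '' (Br D' g ∩ NU g x1 ε r)}.Countable} := by
    intro O hO hne hm
    refine hcount K hKsub hKc i O hO hne (hm.mono ?_)
    rintro y ⟨hy, hc⟩
    refine ⟨hy, ?_⟩
    exact MapsTo.countable_of_injOn (t := {p | p ∈ f '' K ∩ A i ∧ (φ i p).1 = y})
      (f := fun w : ℝ × ℝ => Φ.symm (y, w)) (fun w hw => (hmem y w hw).1)
      ((hinjw y).mono (hsecsub y)) hc
  obtain ⟨O, hO, hOne, z, hz, hzm⟩ := exists_graph hgOD hdim hx1B hN htd' hcount'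
  obtain ⟨O', hO'sub, hO', hO'ne, k, hk, hkm⟩ := hN.lift_graph hgOD hO hOne
    (q := fun y => (y, z y)) (continuousOn_id.prodMk hz) hzm
  refine ⟨O', k, hO', hO'ne, hk, ?_, ?_⟩
  · intro y hy
    have := (hkm y hy).1
    rw [hBg] at this
    exact hBsub this
  · intro a ha b hb hab
    have h1 := (hkm a ha).2
    have h2 := (hkm b hb).2
    have h3 : g (k a) = g (k b) := congrArg Φ hab
    rw [h1, h2] at h3
    exact (Prod.mk.inj h3).1

/-- the dimension of the branch set -/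
theorem main_dim {D : Set (EuclideanSpace ℝ (Fin n))}
    {f : EuclideanSpace ℝ (Fin n) → EuclideanSpace ℝ (Fin n)}
    {O : Set (EuclideanSpace ℝ (Fin m))} (hO : IsOpen O) (hne : O.Nonempty)
    {k : EuclideanSpace ℝ (Fin m) → EuclideanSpace ℝ (Fin n)} (hk : ContinuousOn k O)
    (hkB : MapsTo k O (Br D f)) (hfk : InjOn (fun y => f (k y)) O) : ¬ CD (Br D f) m := by
  refine not_CD hO hne hk hkB ?_
  intro a ha b hb hab
  exact hfk ha hb (congrArg f hab)

end Run7.h379
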