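import Pool.Agent.Run7.h379.Cov

/-!
# Monodromy over the slices of an open set of a product
-/

set_option autoImplicit false
set_option linter.unusedSectionVars false

open Set Topology unitInterval

namespace Run7.h379

variable {X M F : Type*} [TopologicalSpace X] [NormedAddCommGroup M] [NormedSpace ℝ M]
  [NormedAddCommGroup F] [NormedSpace ℝ F] {p : X → M × F} {Z : Set (M × F)}

/-- the part of the slice over `y` with second coordinate in `d` -/
def Sl (Z : Set (M × F)) (y : M) (d : Set F) : Set (M × F) := {q | q.1 = y ∧ q.2 ∈ d ∧ q ∈ Z}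

theorem Sl_mono {y : M} {d d' : Set F} (h : d ⊆ d') : Sl Z y d ⊆ Sl Z y d' :=
  fun _ hq => ⟨hq.1, h hq.2.1, hq.2.2⟩

theorem Sl_sub {y : M} {d : Set F} : Sl Z y d ⊆ Z := fun _ hq => hq.2.2

/-- nontriviality of the monodromy of a slice is an open condition -/
theorem isOpen_bad (hp : IsCoveringMapOn p Z) (hpc : Continuous p) (hZ : IsOpen Z) (d : Set F) :
    IsOpen {y | ¬ Tr p (Sl Z y d)} := by
  rw [Metric.isOpen_iff]
  intro y0 hy0
  have hy0' : ¬ ∀ γ : C(I, X), (∀ t, p (γ t) ∈ Sl Z y0 d) → p (γ 0) = p (γ 1) → γ 0 = γ 1 := hy0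
  push Not at hy0'
  obtain ⟨γ, hγ, h01, hne⟩ := hy0'
  have hK : IsCompact (range fun t => p (γ t)) := isCompact_range (by fun_prop)
  have hKZ : (range fun t => p (γ t)) ⊆ Z := by
    rintro _ ⟨t, rfl⟩
    exact Sl_sub (hγ t)
  obtain ⟨δ, hδ, hth⟩ := hK.exists_thickening_subset_open hZ hKZ
  refine ⟨δ, hδ, ?_⟩
  intro y hy hTr
  rw [Metric.mem_ball, dist_eq_norm] at hy
  let H : C(I × I, M × F) := ⟨fun q => p (γ q.2) + (q.1 : ℝ) • ((y - y0, 0) : M × F), by fun_prop⟩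
  have hH : ∀ q, H q ∈ Z := by
    intro q
    apply hth
    rw [Metric.mem_thickening_iff]
    refine ⟨p (γ q.2), ⟨q.2, rfl⟩, ?_⟩
    rw [dist_eq_norm]
    show ‖p (γ q.2) + (q.1 : ℝ) • ((y - y0, 0) : M × F) - p (γ q.2)‖ < δ
    rw [add_sub_cancel_left, norm_smul, Prod.norm_def]
    have h1 : ‖(q.1 : ℝ)‖ ≤ 1 := by
      rw [Real.norm_eq_abs, abs_of_nonneg q.1.2.1]; exact q.1.2.2
    have h2 : max ‖y - y0‖ ‖(0 : F)‖ < δ := by
      rw [norm_zero]; exact max_lt hy hδ
    calc ‖(q.1 : ℝ)‖ * max ‖y - y0‖ ‖(0 : F)‖ ≤ 1 * max ‖y - y0‖ ‖(0 : F)‖ := by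
          apply mul_le_mul_of_nonneg_right h1
          exact le_trans (norm_nonneg _) (le_max_left _ _)
      _ < δ := by rw [one_mul]; exact h2
  obtain ⟨G, h1, h2⟩ := exists_lift hp H hH γ (fun a => by simp [H])
  have hend : G (1, 0) = G (1, 1) := by
    refine hTr ⟨fun t => G (1, t), by fun_prop⟩ ?_ ?_
    · intro t
      show p (G (1, t)) ∈ _
      rw [h1]
      obtain ⟨e1, e2, e3⟩ := hγ t
      refine ⟨?_, ?_, hH _⟩
      · show (p (γ t) + ((1 : I) : ℝ) • ((y - y0, 0) : M × F)).1 = y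
        simp [e1]
      · show (p (γ t) + ((1 : I) : ℝ) • ((y - y0, 0) : M × F)).2 ∈ d
        simpa using e2
    · show p (G (1, 0)) = p (G (1, 1))
      rw [h1, h1]
      show p (γ 0) + _ = p (γ 1) + _
      rw [h01]
  apply hne
  have := lift_unique hp (g1 := fun t : I => G (t, 0)) (g2 := fun t : I => G (t, 1))
    (by fun_prop) (by fun_prop) (fun t => by rw [h1]; exact hH _)
    (fun t => by
      rw [h1, h1]
      show p (γ 0) + _ = p (γ 1) + _
      rw [h01]) 1 hend 0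
  rw [h2, h2] at this
  exact this

/-- if the monodromy is trivial over all slices then it is trivial over the union of the slices -/
theorem Tr.of_slices (hp : IsCoveringMapOn p Z) (hZ : IsOpen Z) (hpc : Continuous p) {O : Set M}
    (hO : Convex ℝ O) {W : Set F} (hW : IsOpen W) {w0 : F} (hw0 : w0 ∈ W)
    (hbase : ∀ y ∈ O, (y, w0) ∈ Z)
    (hconn : ∀ y ∈ O, ∀ w ∈ W, (y, w) ∈ Z → JoinedIn (Sl Z y W) (y, w) (y, w0))
    (htr : ∀ y ∈ O, Tr p (Sl Z y W)) : Tr p {q | q.1 ∈ O ∧ q.2 ∈ W ∧ q ∈ Z} := by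
  intro γ hγ h01
  have ex : ∀ t, ∃ e, Jn p (Sl Z (p (γ t)).1 W) (γ t) e ∧ p e = ((p (γ t)).1, w0) := by
    intro t
    obtain ⟨h1, h2, h3⟩ := hγ t
    exact exists_jn hp Sl_sub (hconn _ h1 _ h2 h3)
  choose l hl hl0 using ex
  have hlc : Continuous l := by
    rw [continuous_iff_continuousAt]
    intro t0
    obtain ⟨c, hc, hc0, hc1⟩ := hl t0
    have hK : IsCompact (range fun s => p (c s)) := isCompact_range (by fun_prop)
    have hKZ : (range fun s => p (c s)) ⊆ Z ∩ (univ ×ˢ W) := by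
      rintro _ ⟨s, rfl⟩
      exact ⟨Sl_sub (hc s), trivial, (hc s).2.1⟩
    obtain ⟨δ, hδ, hth⟩ := hK.exists_thickening_subset_open
      (hZ.inter (isOpen_univ.prod hW)) hKZ
    let J : Set I := {t | dist (p (γ t)).1 (p (γ t0)).1 < δ ∧ dist (p (γ t)).2 (p (γ t0)).2 < δ}
    have hJ : IsOpen J := by
      apply IsOpen.inter
      · exact isOpen_lt (f := fun t => dist (p (γ t)).1 (p (γ t0)).1) (g := fun _ => δ)
          (by fun_prop) continuous_const
      · exact isOpen_lt (f := fun t => dist (p (γ t)).2 (p (γ t0)).2) (g := fun _ => δ)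
          (by fun_prop) continuous_const
    have ht0 : t0 ∈ J := ⟨by simpa using hδ, by simpa using hδ⟩
    let H : C(I × J, M × F) := ⟨fun q => ((p (γ q.2)).1,
      (p (c q.1)).2 + (1 - (q.1 : ℝ)) • ((p (γ q.2)).2 - (p (γ t0)).2)), by fun_prop⟩
    have hH' : ∀ q, H q ∈ Z ∩ (univ ×ˢ W) := by
      intro q
      apply hth
      rw [Metric.mem_thickening_iff]
      refine ⟨p (c q.1), ⟨q.1, rfl⟩, ?_⟩
      rw [Prod.dist_eq]
      apply max_lt
      · show dist (p (γ q.2)).1 (p (c q.1)).1 < δ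
        rw [(hc q.1).1]
        exact q.2.2.1
      · show dist ((p (c q.1)).2 + (1 - (q.1 : ℝ)) • ((p (γ q.2)).2 - (p (γ t0)).2)) (p (c q.1)).2 < δ
        rw [dist_eq_norm, add_sub_cancel_left, norm_smul]
        have h3 : ‖1 - (q.1 : ℝ)‖ ≤ 1 := by
          rw [Real.norm_eq_abs, abs_of_nonneg (by linarith [q.1.2.2])]
          linarith [q.1.2.1]
        have h4 := q.2.2.2
        rw [dist_eq_norm] at h4
        calc _ ≤ 1 * ‖(p (γ q.2)).2 - (p (γ t0)).2‖ :=
              mul_le_mul_of_nonneg_right h3 (norm_nonneg _)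
          _ < δ := by rw [one_mul]; exact h4
    obtain ⟨G, hG1, hG2⟩ := exists_lift hp H (fun q => (hH' q).1) ⟨fun t : J => γ t, by fun_prop⟩
      (fun a => by
        show ((p (γ a)).1, (p (c 0)).2 + (1 - ((0 : I) : ℝ)) • ((p (γ a)).2 - (p (γ t0)).2))
          = p (γ a)
        rw [hc0]
        simp)
    have hGl : ∀ t : J, G (1, t) = l t := by
      intro t
      have hj : Jn p (Sl Z (p (γ t)).1 W) (γ t) (G (1, t)) := by
        refine ⟨⟨fun s => G (s, t), by fun_prop⟩, fun s => ?_, hG2 t, rfl⟩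
        show p (G (s, t)) ∈ _
        rw [hG1]
        exact ⟨rfl, (hH' (s, t)).2.2, (hH' (s, t)).1⟩
      refine (htr _ (hγ t).1).eq (hj.symm.trans (hl t)) ?_
      rw [hG1, hl0]
      show ((p (γ t)).1, (p (c 1)).2 + (1 - ((1 : I) : ℝ)) • ((p (γ t)).2 - (p (γ t0)).2)) = _
      rw [hc1, hl0]
      simp
    have hcont : ContinuousOn l J := by
      rw [continuousOn_iff_continuous_domRestrict]
      have : J.domRestrict l = fun t => G (1, t) := funext fun t => (hGl t).symm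
      rw [this]
      fun_prop
    exact hcont.continuousAt (hJ.mem_nhds ht0)
  have hA : Convex ℝ {q : M × F | q.1 ∈ O ∧ q.2 = w0} := by
    rintro ⟨a, b⟩ ⟨h1, h2⟩ ⟨a', b'⟩ ⟨h3, h4⟩ s t hs ht hst
    simp only at h1 h2 h3 h4
    subst h2
    refine ⟨hO h1 h3 hs ht hst, ?_⟩
    show s • b + t • b' = b
    rw [h4, ← add_smul, hst, one_smul]
  have hAZ : {q : M × F | q.1 ∈ O ∧ q.2 = w0} ⊆ Z := by
    rintro ⟨a, b⟩ ⟨h1, h2⟩
    simp only at h1 h2
    subst h2
    exact hbase _ h1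
  have hll : l 0 = l 1 := by
    refine Tr.of_convex hp hAZ hA hpc ⟨l, hlc⟩ ?_ ?_
    · intro t
      show p (l t) ∈ _
      rw [hl0]
      exact ⟨(hγ t).1, rfl⟩
    · show p (l 0) = p (l 1)
      rw [hl0, hl0, h01]
  have j0 := hl 0
  have j1 := hl 1
  rw [← h01, ← hll] at j1
  exact (htr _ (hγ 0).1).eq (j0.trans j1.symm) h01

end Run7.h379
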